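import Pool.Agent.U854.CQ.Law
import Pool.Agent.U854.CL.Line
import Pool.Agent.U854.SA.Res
import Pool.Agent.U854.DG.Fin
import Pool.Agent.U854.DM.Tor
import Pool.Agent.W282.SI.Good

/-!
# MP_eeb1a4_ag: degenerating families of variations of mixed Hodge structure: no atypical Hodge locus
for all but finitely many members

**Variations.** A `Variation n k` consists of `n` elliptic curves `Y² = X³ + A_i(s) X + B_i(s)` and `k`
extensions of `ℤ` by `ℤ(1)` with the classes `U_j(s)` (Kummer variations) over the base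
`E_q(s) = 0`, `4 A_i(s)³ + 27 B_i(s)² ≠ 0`, `U_j(s) ≠ 0` in `ℂ^N`, with any complex polynomials. By the
`j`-invariant and the exponential function the quotient `Γ \ D` of the period domain is
`Y(1)^n × G_m^k`; the image of the period map is `Variation.image`. The Hodge subvarieties are the
products `Z × T` of special subvarieties `Z` of `Y(1)^n` and torsion cosets `T` of `G_m^k`.
`NoAtypicalHodge X m` says that `X`, regarded as a set of dimension `m`, meets all `Z × T` only in sets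
of dimension at most `dim (Z × T) + m - (n + k)` (and in points of at most this transcendence
degree). If `X` is the image of the period map and has the dimension `m`, this says that the atypical
Hodge locus is empty.

**Degenerating families.** Let `K` be a number field, embedded into `ℂ`, and `P ∈ 𝓞 K [a]` a polynomial
with the root `b ∈ 𝓞 K`. Let `B_a ⊆ (P¹)^s` be a family of varieties given by multihomogeneous forms
`H_t` with coefficients in `𝓞 K [a]`, and let `y_i = N_i / M_i` (`i ≤ n + k`) be quotients of forms of the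
same multidegree with coefficients in `𝓞 K [a]`. The member `X_a ⊂ Y(1)^n × G_m^k` is the set of the
points with the coordinates

  `x_i = ω_i P(a)^(-e_i) (1 + P(a)^h y_i(a; z))`, `u_j = ω_j P(a)^(o_j) (1 + P(a)^h y_j(a; z))`,
  `z ∈ B_a(ℂ)`,

where `h ≥ 1`, `e_i > h`, `o_j ∈ ℤ`, and the `ω_i` are roots of unity (`Degeneration.member`). For `a → b`
all the elliptic curves degenerate, and the mixed Hodge structures tend to one point of the boundary in
one direction.

**Position.** The degeneration at `b` is in position `m` (`Degeneration.Position`) if at each point, over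
any extension field of `K`, of the closure of the graph of `(y_i)_i` on `B_b`: if `w` of the `y_i` are
algebraically independent over `K` then there are a set `S` of elliptic coordinates such that the
`y_i / e_i` are finite and distinct, and a set `J` of at most two Kummer coordinates such that the
vectors `(o_j, y_j)` are finite and linearly independent, with `|S| + |J| ≥ n + k + w - m`.

**Theorem** (`result`).
1. Let the degeneration at `b` be in position `m`. There is a finite set `S` of primes of `K` such that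
   for all `a ∈ K` for which `1 / (a - b)` is not `S`-integral all variations whose period map has its
   image in `X_a` have the property `NoAtypicalHodge`.
2. If a family `(X_a)` over `K` has three degenerations in position `m` then this is true for all but
   finitely many `a ∈ K`.
3. If it has two, then this is true for all but finitely many `S₀`-integers `a`, for each finite set
   `S₀` of primes.
4. Example, `n = 2`, `k = 1`, `m = 1` (`exampleVariation`): the line with the coordinate `t ≠ 0, 2`, two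
   elliptic curves with the `j`-invariants `c^(-e_0) (1 + e_0 c t)` and `c^(-e_1) (1 + e_1 c / t)`, and the
   Kummer variation of `c (1 + c (t + 1) / (t - 2))`, where `c = P(a)`, `e_i ≥ 2`, and `P` has three roots in
   `𝓞 K`.

So in 4., for all but finitely many `a ∈ K`, there is no `t` such that two of the independent
conditions `the curves are isogenous`, `the first (second) curve has complex multiplication`, `the
extension is torsion` are true.

The starting results for this problem (`TropicalEllipticFamilies`, `RandomVariations`, …) use the absolute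
values of the coefficients at places near to degenerate parameters; they say nothing if all
coordinates have absolute values in one direction at all degenerate parameters. Here the terms of first
order are used. For `k = 0` the theorem is the one of our file `MP_e573c6_ag.DegenerationsToTheCusp`,
for variations; new are the Kummer coordinates. More than two of them cannot be in `J`, since modulo
primes `v` of degree one three vectors `(o_j, y_j)` are always linearly dependent over `𝔽_p`, and the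
numbers `u_j` could then be multiplicatively dependent up to first order.

**Proof.** At a place `v` with `|a - b|_v < 1` the elliptic coordinates are near to the cusp, and by the
law at the cusp (`Pool.Agent.U854.CQ.Law`, from `MP_130685_nt.NearTheCusp`) coordinates which are linked
by an isogeny satisfy `e_i y_j ≡ e_j y_i` modulo `v`. Multiplicative relations of one or two Kummer
coordinates give `c o_i + d o_j = 0` and then `c y_i + d y_j ≡ 0` up to a common factor
(`Pool.Agent.U854.DM.Tor`). The position modulo almost all `v` follows from the position in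
characteristic zero by an ultraproduct (`spread`). Parts 2 and 3 follow by the unit equation (starting
library, `Pool.Agent.K1H83.TW.unit_two`).
-/

set_option autoImplicit false

namespace Pool.Agent.Results.MP_eeb1a4_ag.DegeneratingVariations

open UpperHalfPlane H294ZP NumberField IsDedekindDomain Polynomial Filter
open Pool.Agent.W282.ZP (zcl idealOf zdim)
open Pool.Agent.U854.DG (fin_small exists_prime unif_lt near_p three_points two_points)

/-- A special subvariety of dimension `r` of `Y(1)^n`: a map `cls` from the coordinates onto `r`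
classes (`none` for the constant coordinates), an integral matrix of positive determinant for each
coordinate, and a CM point for each coordinate. -/
structure SpecialVariety (n r : ℕ) where
  cls : Fin n → Option (Fin r)
  surj : ∀ l : Fin r, ∃ i, cls i = some l
  mat : Fin n → Matrix (Fin 2) (Fin 2) ℤ
  det_pos : ∀ i, 0 < (mat i).det
  cm : Fin n → ℍ
  isCM : ∀ i, IsCM (cm i)

/-- The points of a special subvariety: the constant coordinates are the singular moduli
`j (cm i)`, the other coordinates are `j (g_i z_l)`, where `l` is the class of `i`, `g_i = mat i` and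
`z_1, …, z_r` are free parameters in the upper half plane. -/
def SpecialVariety.locus {n r : ℕ} (Z : SpecialVariety n r) : Set (Fin n → ℂ) :=
  {x | ∃ z : Fin r → ℍ, ∀ i, (Z.cls i = none → x i = jj (Z.cm i)) ∧
    ∀ l, Z.cls i = some l → ∃ w : ℍ,
      (w : ℂ) * (Z.mat i 1 0 * z l + Z.mat i 1 1) = Z.mat i 0 0 * z l + Z.mat i 0 1 ∧ x i = jj w}

/-- The torsion coset `{u | u ^ a = η ^ a for all a in M}` of an algebraic subgroup of `(ℂ^×)^k`, of
dimension `k - rank M`; here the `η_j` are roots of unity. -/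
def coset {k : ℕ} (M : Submodule ℤ (Fin k → ℤ)) (η : Fin k → ℂ) : Set (Fin k → ℂ) :=
  {u | (∀ j, u j ≠ 0) ∧ ∀ a ∈ M, ∏ j, u j ^ a j = ∏ j, η j ^ a j}

/-- A variation of mixed Hodge structure: the base `E_q(s) = 0`, `4 A_i(s)³ + 27 B_i(s)² ≠ 0`,
`U_j(s) ≠ 0` in `ℂ^N`, the elliptic curves `Y² = X³ + A_i(s) X + B_i(s)` and the extensions of `ℤ` by
`ℤ(1)` with the classes `U_j(s)` (Kummer variations). -/
structure Variation (n k : ℕ) where
  N : ℕ
  κ : Type
  E : κ → MvPolynomial (Fin N) ℂ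
  A : Fin n → MvPolynomial (Fin N) ℂ
  B : Fin n → MvPolynomial (Fin N) ℂ
  U : Fin k → MvPolynomial (Fin N) ℂ

/-- The image of the period map in `Γ \ D = Y(1)^n × G_m^k`: the `j`-invariants
`6912 A_i³ / (4 A_i³ + 27 B_i²)` and the numbers `U_j` at the points of the base. -/
def Variation.image {n k : ℕ} (V : Variation n k) : Set (Fin n ⊕ Fin k → ℂ) :=
  {x | ∃ s : Fin V.N → ℂ, (∀ q, MvPolynomial.eval s (V.E q) = 0) ∧
    (∀ i, 4 * MvPolynomial.eval s (V.A i) ^ 3 + 27 * MvPolynomial.eval s (V.B i) ^ 2 ≠ 0) ∧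
    (∀ j, MvPolynomial.eval s (V.U j) ≠ 0) ∧
    x = Sum.elim (fun i => 6912 * MvPolynomial.eval s (V.A i) ^ 3 /
      (4 * MvPolynomial.eval s (V.A i) ^ 3 + 27 * MvPolynomial.eval s (V.B i) ^ 2))
      fun j => MvPolynomial.eval s (V.U j)}

/-- There are no intersections of `X ⊆ Y(1)^n × G_m^k` of too large dimension with the Hodge
subvarieties `Z × T`, `Z` a special subvariety of dimension `r`, `T` a torsion coset of dimension
`k - rank M`, if `X` is regarded as a set of dimension `m`: every point of `X ∩ (Z × T)` has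
transcendence degree at most `r + m - n - rank M`, and every irreducible closed set `A`, such that its
points outside of some hypersurface `g = 0`, which does not contain `A`, are in `X ∩ (Z × T)`, has
dimension at most `r + m - n - rank M`. -/
def NoAtypicalHodge {n k : ℕ} (X : Set (Fin n ⊕ Fin k → ℂ)) (m : ℕ) : Prop :=
  ∀ (r : ℕ) (Z : SpecialVariety n r) (M : Submodule ℤ (Fin k → ℤ)) (η : Fin k → ℂ),
    (∀ j, ∃ N : ℕ, 0 < N ∧ η j ^ N = 1) →
    (∀ x ∈ X, (fun i => x (Sum.inl i)) ∈ Z.locus → (fun j => x (Sum.inr j)) ∈ coset M η →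
      ∀ W : Finset (Fin n ⊕ Fin k), AlgebraicIndependent ℚ (fun i : W => x i) →
        n + Module.finrank ℤ M + W.card ≤ m + r) ∧
    ∀ (A : Set (Fin n ⊕ Fin k → ℂ)) (g : MvPolynomial (Fin n ⊕ Fin k) ℂ),
      (∀ w ∈ A, MvPolynomial.eval w g ≠ 0 → w ∈ X ∧ (fun i => w (Sum.inl i)) ∈ Z.locus ∧
        (fun j => w (Sum.inr j)) ∈ coset M η) →
      zcl A ⊆ A → (idealOf A).IsPrime → g ∉ idealOf A →
      (n : Cardinal) + (Module.finrank ℤ M : Cardinal) + zdim A ≤ (m : Cardinal) + (r : Cardinal)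

/-- The `j`-invariants `c^(-e_0) (1 + e_0 c t)` and `c^(-e_1) (1 + e_1 c / t)` as polynomials in
`t = X_0` and `w = X_1 = 1 / (t (t - 2))`. -/
noncomputable def invariants (e : Fin 2 → ℕ) (c : ℂ) : Fin 2 → MvPolynomial (Fin 2) ℂ :=
  ![MvPolynomial.C (c⁻¹ ^ e 0) * (1 + MvPolynomial.C (e 0 * c) * MvPolynomial.X 0),
    MvPolynomial.C (c⁻¹ ^ e 1) *
      (1 + MvPolynomial.C (e 1 * c) * ((MvPolynomial.X 0 - 2) * MvPolynomial.X 1))]

/-- An explicit variation on an open set of the line with the coordinate `t ≠ 0, 2`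
(`t (t - 2) w = 1`): two elliptic curves `y² = x³ - 3 J (J - 1728) x - 2 J (J - 1728)²` with the
`j`-invariants `J = c^(-e_0) (1 + e_0 c t)`, `c^(-e_1) (1 + e_1 c / t)`, and the Kummer variation of
`U = c (1 + c (t + 1) / (t - 2))`. -/
noncomputable def exampleVariation (e : Fin 2 → ℕ) (c : ℂ) : Variation 2 1 where
  N := 2
  κ := Unit
  E := fun _ => MvPolynomial.X 0 * (MvPolynomial.X 0 - 2) * MvPolynomial.X 1 - 1
  A := fun i => -3 * invariants e c i * (invariants e c i - 1728)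
  B := fun i => -2 * invariants e c i * (invariants e c i - 1728) ^ 2
  U := fun _ => MvPolynomial.C c * (1 + MvPolynomial.C c *
    ((MvPolynomial.X 0 + 1) * (MvPolynomial.X 0 * MvPolynomial.X 1)))

/-- A form with coefficients in `R` which is homogeneous of degree `deg i` in `(ξ i, ζ i)` for each
`i`: the coefficients of the monomials `∏ ξ_i ^ (e_i) ζ_i ^ (deg i - e_i)`. -/
structure MultiForm (R : Type) (s : ℕ) where
  deg : Fin s → ℕ
  coeff : ((i : Fin s) → Fin (deg i + 1)) → R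

/-- The value of the form at a point over `k`, for a ring homomorphism `R → k`. -/
def MultiForm.eval {R k : Type} [CommRing R] [CommRing k] {s : ℕ} (F : MultiForm R s) (π : R →+* k)
    (ξ ζ : Fin s → k) : k :=
  ∑ e, π (F.coeff e) * ∏ i, ξ i ^ (e i : ℕ) * ζ i ^ (F.deg i - e i)

/-- A degenerating family of subsets of `Y(1)^n × G_m^k`: equations `H_t` of varieties
`B_a ⊆ (P¹)^s`, forms `N_i` and `M_i` of the same multidegrees, all with coefficients in `𝓞 K [a]`,
a polynomial `P ≠ 0` with `P (b) = 0`, exponents `e_i > h > 0` of the elliptic coordinates, integral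
exponents `o_j` of the Kummer coordinates, and roots of unity `ω_i`. -/
structure Degeneration (K : Type) [Field K] (n k : ℕ) where
  s : ℕ
  T : Type
  H : T → MultiForm (𝓞 K)[X] s
  N : Fin n ⊕ Fin k → MultiForm (𝓞 K)[X] s
  M : Fin n ⊕ Fin k → MultiForm (𝓞 K)[X] s
  deg_eq : ∀ i, (N i).deg = (M i).deg
  P : (𝓞 K)[X]
  P_ne : P ≠ 0
  b : 𝓞 K
  isRoot : P.eval b = 0
  h : ℕ
  h_pos : 0 < h
  e : Fin n → ℕ
  h_lt : ∀ i, h < e i
  o : Fin k → ℤ
  ω : Fin n ⊕ Fin k → 𝓞 K
  root : ∀ i, ∃ r : ℕ, 0 < r ∧ ω i ^ r = 1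

variable {K : Type} [Field K] {n k : ℕ}

/-- the polynomials in the parameter with coefficients in `𝓞 K` are evaluated at `a` -/
noncomputable def spec (σ : K →+* ℂ) (a : K) : (𝓞 K)[X] →+* ℂ :=
  eval₂RingHom (σ.comp (algebraMap (𝓞 K) K)) (σ a)

/-- the order at `b` of the coordinate `i` -/
def Degeneration.ord (D : Degeneration K n k) : Fin n ⊕ Fin k → ℤ :=
  Sum.elim (fun i => -(D.e i : ℤ)) D.o

/-- The member of the family with the parameter `a`: all points with the coordinates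
`x_i = ω_i P(a)^(-e_i) (1 + P(a)^h N_i(a; z) / M_i(a; z))` (`i ≤ n`) and
`u_j = ω_j P(a)^(o_j) (1 + P(a)^h N_j(a; z) / M_j(a; z))` (`j ≤ k`), where `z ∈ B_a`,
`M_i(a; z) ≠ 0`. -/
def Degeneration.member (D : Degeneration K n k) (σ : K →+* ℂ) (a : K) :
    Set (Fin n ⊕ Fin k → ℂ) :=
  {x | ∃ ξ ζ : Fin D.s → ℂ, (∀ j, ξ j ≠ 0 ∨ ζ j ≠ 0) ∧
    (∀ t, (D.H t).eval (spec σ a) ξ ζ = 0) ∧
    ∀ i, (D.M i).eval (spec σ a) ξ ζ ≠ 0 ∧
      x i = σ (D.ω i) * σ (aeval a D.P) ^ D.ord i * (1 + σ (aeval a D.P) ^ D.h *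
        ((D.N i).eval (spec σ a) ξ ζ / (D.M i).eval (spec σ a) ξ ζ))}

/-- The point `((ξ_j : ζ_j)_j, (η_i : θ_i)_i)` over `κ` satisfies the equations `H_t` and
`η_i M_i = θ_i N_i` for the parameter `a = b`; `ρ` is a homomorphism from `𝓞 K` to `κ`. -/
def Degeneration.OnGraph (D : Degeneration K n k) {κ : Type} [Field κ]
    (ρ : 𝓞 K →+* κ) (ξ ζ : Fin D.s → κ) (η θ : Fin n ⊕ Fin k → κ) : Prop :=
  (∀ j, ξ j ≠ 0 ∨ ζ j ≠ 0) ∧ (∀ i, η i ≠ 0 ∨ θ i ≠ 0) ∧
    (∀ t, (D.H t).eval (ρ.comp (evalRingHom D.b)) ξ ζ = 0) ∧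
    ∀ i, η i * (D.M i).eval (ρ.comp (evalRingHom D.b)) ξ ζ =
      θ i * (D.N i).eval (ρ.comp (evalRingHom D.b)) ξ ζ

/-- The degeneration is in position: at each point over an extension `κ` of `K`, for each set
`W` of algebraically independent coordinates `y_i = η_i / θ_i` there are a set `S` of elliptic
coordinates such that the `y_i / e_i`, `i ∈ S`, are finite and distinct, and a set `J` of at most two
Kummer coordinates such that the pairs `(o_j, y_j)`, `j ∈ J`, are finite and linearly independent,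
with `n + k + |W| ≤ m + |S| + |J|`. -/
def Degeneration.Position (D : Degeneration K n k) (m : ℕ) : Prop :=
  ∀ (κ : Type) [Field κ] [Algebra K κ] (ξ ζ : Fin D.s → κ) (η θ : Fin n ⊕ Fin k → κ),
    D.OnGraph ((algebraMap K κ).comp (algebraMap (𝓞 K) K)) ξ ζ η θ →
    ∀ W : Finset (Fin n ⊕ Fin k), AlgebraicIndependent K (fun i : W => η i / θ i) →
      ∃ (S : Finset (Fin n)) (J : Finset (Fin k)),
        (∀ i ∈ S, θ (Sum.inl i) ≠ 0) ∧
        (∀ i ∈ S, ∀ j ∈ S, i ≠ j →
          η (Sum.inl i) / θ (Sum.inl i) / D.e i ≠ η (Sum.inl j) / θ (Sum.inl j) / D.e j) ∧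
        (∀ j ∈ J, θ (Sum.inr j) ≠ 0 ∧ (D.o j ≠ 0 ∨ η (Sum.inr j) ≠ 0)) ∧
        (∀ i ∈ J, ∀ j ∈ J, i ≠ j →
          (D.o j : κ) * (η (Sum.inr i) / θ (Sum.inr i)) ≠
            (D.o i : κ) * (η (Sum.inr j) / θ (Sum.inr j))) ∧
        J.card ≤ 2 ∧ n + k + W.card ≤ m + S.card + J.card

/-- two elliptic coordinates can be isogenous up to first order -/
def Degeneration.Linked (D : Degeneration K n k) {κ : Type} [Field κ] (η θ : Fin n ⊕ Fin k → κ)
    (i j : Fin n) : Prop :=
  ((D.e i / Nat.gcd (D.e i) (D.e j) : ℕ) : κ) * (η (Sum.inl j) / θ (Sum.inl j)) =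
    ((D.e j / Nat.gcd (D.e i) (D.e j) : ℕ) : κ) * (η (Sum.inl i) / θ (Sum.inl i))

/-- two Kummer coordinates can be dependent up to first order -/
def Degeneration.LinkedT (D : Degeneration K n k) {κ : Type} [Field κ] (η θ : Fin n ⊕ Fin k → κ)
    (i j : Fin k) : Prop :=
  ((D.o j / Int.gcd (D.o i) (D.o j) : ℤ) : κ) * (η (Sum.inr i) / θ (Sum.inr i)) =
    ((D.o i / Int.gcd (D.o i) (D.o j) : ℤ) : κ) * (η (Sum.inr j) / θ (Sum.inr j))

/-- the sets of coordinates `S`, `J` are free -/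
def Degeneration.Free (D : Degeneration K n k) {κ : Type} [Field κ] (η θ : Fin n ⊕ Fin k → κ)
    (S : Finset (Fin n)) (J : Finset (Fin k)) : Prop :=
  (∀ i ∈ S, θ (Sum.inl i) ≠ 0) ∧ (∀ i ∈ S, ∀ j ∈ S, i ≠ j → ¬ D.Linked η θ i j) ∧
  (∀ j ∈ J, θ (Sum.inr j) ≠ 0) ∧ (∀ j ∈ J, D.o j = 0 → η (Sum.inr j) ≠ 0) ∧
  (∀ i ∈ J, ∀ j ∈ J, i ≠ j → ¬ D.LinkedT η θ i j)

/-- position over `k₀` -/
def Degeneration.PositionOver (D : Degeneration K n k) (m : ℕ) (k₀ : Type) [CommRing k₀]
    (ρ : 𝓞 K →+* k₀) : Prop :=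
  ∀ (κ : Type) [Field κ] [Algebra k₀ κ] (ξ ζ : Fin D.s → κ) (η θ : Fin n ⊕ Fin k → κ),
    D.OnGraph ((algebraMap k₀ κ).comp ρ) ξ ζ η θ →
    ∀ W : Finset (Fin n ⊕ Fin k), AlgebraicIndependent k₀ (fun i : W => η i / θ i) →
      ∃ (S : Finset (Fin n)) (J : Finset (Fin k)), D.Free η θ S J ∧ J.card ≤ 2 ∧
        n + k + W.card ≤ m + S.card + J.card

theorem map_eval {R k k' : Type} [CommRing R] [CommRing k] [CommRing k'] {s : ℕ}
    (F : MultiForm R s) (π : R →+* k) (f : k →+* k') (ξ ζ : Fin s → k) :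
    f (F.eval π ξ ζ) = F.eval (f.comp π) (fun i => f (ξ i)) (fun i => f (ζ i)) := by
  unfold MultiForm.eval
  rw [map_sum]
  refine Finset.sum_congr rfl fun e _ => ?_
  rw [map_mul, map_prod]
  congr 1
  refine Finset.prod_congr rfl fun i _ => ?_
  rw [map_mul, map_pow, map_pow]

theorem eval_pi {ι R : Type} {k : ι → Type} [∀ v, CommRing (k v)] [CommRing R] {s : ℕ}
    (G : MultiForm R s) (Φ : R →+* ∀ v, k v) (ξ ζ : Fin s → ∀ v, k v) (v : ι) :
    (G.eval Φ ξ ζ) v =
      G.eval ((Pi.evalRingHom k v).comp Φ) (fun j => ξ j v) (fun j => ζ j v) :=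
  map_eval G Φ (Pi.evalRingHom k v) ξ ζ

section ultra
variable {ι : Type} [Infinite ι] (k : ι → Type) [∀ v, Field (k v)]

/-- the functions which vanish at almost all indices -/
def nul : Ideal (∀ v, k v) where
  carrier := {f | ∀ᶠ v in (hyperfilter ι : Filter ι), f v = 0}
  add_mem' := by
    intro f g hf hg
    filter_upwards [hf, hg] with v h1 h2
    rw [Pi.add_apply, h1, h2, add_zero]
  zero_mem' := Filter.Eventually.of_forall fun _ => rfl
  smul_mem' := by
    intro c f hf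
    filter_upwards [hf] with v h1
    rw [smul_eq_mul, Pi.mul_apply, h1, mul_zero]

theorem mem_nul (f : ∀ v, k v) : f ∈ nul k ↔ ∀ᶠ v in (hyperfilter ι : Filter ι), f v = 0 := Iff.rfl

theorem nul_max : (nul k).IsMaximal := by
  rw [Ideal.isMaximal_iff]
  refine ⟨?_, ?_⟩
  · intro h
    obtain ⟨v, hv⟩ := Filter.Eventually.exists ((mem_nul k _).1 h)
    exact one_ne_zero hv
  · intro I x hJI hx hxI
    have hx' : ∀ᶠ v in (hyperfilter ι : Filter ι), x v ≠ 0 :=
      Ultrafilter.eventually_not.2 hx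
    have h1 : (1 - x * fun v => (x v)⁻¹) ∈ nul k := by
      rw [mem_nul]
      filter_upwards [hx'] with v hv
      rw [Pi.sub_apply, Pi.mul_apply, Pi.one_apply, mul_inv_cancel₀ hv, sub_self]
    have h2 : (x * fun v => (x v)⁻¹) ∈ I := I.mul_mem_right _ hxI
    have h3 := I.add_mem (hJI h1) h2
    rwa [sub_add_cancel] at h3

/-- the ultraproduct -/
theorem exists_ultra : ∃ (F : Type) (_ : Field F) (mk : (∀ v, k v) →+* F),
    ∀ f, mk f = 0 ↔ ∀ᶠ v in (hyperfilter ι : Filter ι), f v = 0 := by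
  have hmax := nul_max k
  exact ⟨(∀ v, k v) ⧸ nul k, Ideal.Quotient.field (nul k), Ideal.Quotient.mk (nul k),
    fun f => Ideal.Quotient.eq_zero_iff_mem⟩

end ultra

theorem exists_alg {R K F : Type} [CommRing R] [IsDomain R] [Field K] [Algebra R K]
    [IsFractionRing R K] [Field F] (g : R →+* F) (hg : Function.Injective g) :
    ∃ _ : Algebra K F, (algebraMap K F).comp (algebraMap R K) = g := by
  refine ⟨(IsFractionRing.lift hg).toAlgebra, ?_⟩
  ext c
  exact IsFractionRing.lift_algebraMap hg c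

theorem spread {K : Type} [Field K] [NumberField K] {n k₁ m : ℕ} (D : Degeneration K n k₁)
    (hD : D.PositionOver m K (algebraMap (𝓞 K) K)) :
    {v : HeightOneSpectrum (𝓞 K) |
      ¬ D.PositionOver m (𝓞 K ⧸ v.asIdeal) (Ideal.Quotient.mk v.asIdeal)}.Finite := by
  classical
  let Bad : Finset (Fin n ⊕ Fin k₁) → Set (HeightOneSpectrum (𝓞 K)) := fun W =>
    {v | ∃ (k : Type) (_ : Field k) (_ : Algebra (𝓞 K ⧸ v.asIdeal) k) (ξ ζ : Fin D.s → k)
      (η θ : Fin n ⊕ Fin k₁ → k),
      D.OnGraph ((algebraMap (𝓞 K ⧸ v.asIdeal) k).comp (Ideal.Quotient.mk v.asIdeal)) ξ ζ η θ ∧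
      AlgebraicIndependent (𝓞 K ⧸ v.asIdeal) (fun i : W => η i / θ i) ∧
      ∀ S J, D.Free η θ S J → J.card ≤ 2 → ¬ (n + k₁ + W.card ≤ m + S.card + J.card)}
  have hsub : {v : HeightOneSpectrum (𝓞 K) |
      ¬ D.PositionOver m (𝓞 K ⧸ v.asIdeal) (Ideal.Quotient.mk v.asIdeal)} ⊆ ⋃ W, Bad W := by
    intro v hv
    have hv' : ¬ D.PositionOver m (𝓞 K ⧸ v.asIdeal) (Ideal.Quotient.mk v.asIdeal) := hv
    unfold Degeneration.PositionOver at hv'
    push Not at hv'
    obtain ⟨k, fk, ak, ξ, ζ, η, θ, hg, W, hW, hS⟩ := hv'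
    exact Set.mem_iUnion.2 ⟨W, k, fk, ak, ξ, ζ, η, θ, hg, hW, fun S J h h2 => not_le.2 (hS S J h h2)⟩
  refine (Set.finite_iUnion fun W => ?_).subset hsub
  by_contra hinf
  have hI : Infinite (Bad W) := Set.infinite_coe_iff.2 hinf
  choose k fk ak ξ ζ η θ hg hind hS using fun v : Bad W => v.2
  obtain ⟨F, fF, mk, hmk0⟩ := exists_ultra k
  have hmkeq : ∀ f g, (∀ᶠ v in (hyperfilter (Bad W) : Filter (Bad W)), f v = g v) →
      mk f = mk g := by
    intro f g h
    rw [← sub_eq_zero, ← map_sub, hmk0]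
    filter_upwards [h] with v hv
    rw [Pi.sub_apply, hv, sub_self]
  have hdiv : ∀ f g : ∀ v, k v, mk (fun v => f v / g v) = mk f / mk g := by
    intro f g
    by_cases hg0 : mk g = 0
    · rw [hg0, div_zero, hmk0]
      filter_upwards [(hmk0 g).1 hg0] with v hv
      rw [hv, div_zero]
    · rw [eq_div_iff hg0, ← map_mul]
      apply hmkeq
      have h1 : ∀ᶠ v in (hyperfilter (Bad W) : Filter (Bad W)), g v ≠ 0 :=
        Ultrafilter.eventually_not.2 fun h => hg0 ((hmk0 g).2 h)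
      filter_upwards [h1] with v hv
      rw [Pi.mul_apply, div_mul_cancel₀ _ hv]
  -- the homomorphism from the integers of `K`
  let φ : ∀ v : Bad W, 𝓞 K →+* k v := fun v =>
    (algebraMap (𝓞 K ⧸ v.1.asIdeal) (k v)).comp (Ideal.Quotient.mk v.1.asIdeal)
  let Φ : 𝓞 K →+* ∀ v, k v := RingHom.pi φ
  have hφ0 : ∀ (v : Bad W) (c : 𝓞 K), φ v c = 0 → c ∈ v.1.asIdeal := by
    intro v c hc
    have hmx : v.1.asIdeal.IsMaximal := v.1.isMaximal
    let _ := Ideal.Quotient.field v.1.asIdeal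
    have h1 : Ideal.Quotient.mk v.1.asIdeal c = 0 :=
      (map_eq_zero (algebraMap (𝓞 K ⧸ v.1.asIdeal) (k v))).1 hc
    exact Ideal.Quotient.eq_zero_iff_mem.1 h1
  have hfin : ∀ c : 𝓞 K, c ≠ 0 →
      ¬ ∀ᶠ v in (hyperfilter (Bad W) : Filter (Bad W)), c ∈ v.1.asIdeal := by
    intro c hc h
    refine Filter.notMem_hyperfilter_of_finite ?_ h
    have h1 : {v : HeightOneSpectrum (𝓞 K) | v.asIdeal ∣ Ideal.span {c}}.Finite :=
      Ideal.finite_factors (by
        intro h0
        exact hc (Ideal.span_singleton_eq_bot.1 h0))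
    refine (h1.preimage (f := fun v : Bad W => v.1) Subtype.val_injective.injOn).subset ?_
    intro v hv
    exact Ideal.dvd_span_singleton.2 hv
  have hinj : Function.Injective (mk.comp Φ) := by
    rw [injective_iff_map_eq_zero]
    intro c hc
    by_contra hc0
    refine hfin c hc0 ?_
    filter_upwards [(hmk0 (Φ c)).1 hc] with v hv
    exact hφ0 v c hv
  obtain ⟨aF, halg⟩ := exists_alg (K := K) (mk.comp Φ) hinj
  have heval : ∀ (G : MultiForm (𝓞 K)[X] D.s),
      G.eval (((algebraMap K F).comp (algebraMap (𝓞 K) K)).comp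
        (evalRingHom D.b)) (fun j => mk fun v => ξ v j) (fun j => mk fun v => ζ v j) =
      mk (fun v => G.eval ((φ v).comp (evalRingHom D.b)) (ξ v) (ζ v)) := by
    intro G
    have h1 := map_eval G (Φ.comp (evalRingHom D.b)) mk (fun j => fun v => ξ v j)
      (fun j => fun v => ζ v j)
    have h2 : G.eval (Φ.comp (evalRingHom D.b)) (fun j => fun v => ξ v j)
        (fun j => fun v => ζ v j) =
        fun v => G.eval ((φ v).comp (evalRingHom D.b)) (ξ v) (ζ v) := by
      funext v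
      have h3 : (Pi.evalRingHom k v).comp (Φ.comp (evalRingHom D.b)) =
          (φ v).comp (evalRingHom D.b) := RingHom.ext fun x => rfl
      rw [eval_pi, h3]
    rw [halg, RingHom.comp_assoc, ← h1, h2]
  obtain ⟨S, J, ⟨hS1, hS2, hJ0, hJ1, hJ2⟩, hJc, hcount⟩ := hD F (fun j => mk fun v => ξ v j)
    (fun j => mk fun v => ζ v j) (fun i => mk fun v => η v i) (fun i => mk fun v => θ v i)
    ⟨fun j => by
      by_contra hcon
      push Not at hcon
      obtain ⟨v, h1, h2⟩ := (((hmk0 _).1 hcon.1).and ((hmk0 _).1 hcon.2)).exists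
      rcases (hg v).1 j with h | h
      · exact h h1
      · exact h h2, fun i => by
      by_contra hcon
      push Not at hcon
      obtain ⟨v, h1, h2⟩ := (((hmk0 _).1 hcon.1).and ((hmk0 _).1 hcon.2)).exists
      rcases (hg v).2.1 i with h | h
      · exact h h1
      · exact h h2, fun t => by
      rw [heval, hmk0]
      exact Filter.Eventually.of_forall fun v => (hg v).2.2.1 t, fun i => by
      rw [heval, heval, ← map_mul, ← map_mul]
      apply hmkeq
      exact Filter.Eventually.of_forall fun v => (hg v).2.2.2 i⟩ W (by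
      have h0 : AlgebraicIndependent ℤ (fun i : W => (mk fun v => η v i) / (mk fun v => θ v i)) := by
        rw [algebraicIndependent_iff]
        intro Q hQ
        by_contra hQ0
        obtain ⟨d, hd⟩ := MvPolynomial.ne_zero_iff.1 hQ0
        refine hfin (Q.coeff d : ℤ) (by exact_mod_cast hd) ?_
        have e1 : (fun i : W => (mk fun v => η v i) / (mk fun v => θ v i)) =
            fun i : W => mk fun v => η v i / θ v i := by
          funext i
          exact (hdiv _ _).symm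
        rw [e1] at hQ
        have e2 : MvPolynomial.aeval (fun i : W => mk fun v => η v i / θ v i) Q =
            mk (MvPolynomial.aeval (fun (i : W) v => η v i / θ v i) Q) := by
          have h5 := MvPolynomial.map_aeval (fun (i : W) v => η v i / θ v i) mk Q
          rw [h5, MvPolynomial.aeval_def, MvPolynomial.coe_eval₂Hom]
          congr 1
          exact RingHom.ext_int _ _
        rw [e2, hmk0] at hQ
        filter_upwards [hQ] with v hv
        have e3 : (MvPolynomial.aeval (fun (i : W) v => η v i / θ v i) Q) v =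
            MvPolynomial.aeval (fun i : W => η v i / θ v i) Q := by
          have h5 := MvPolynomial.map_aeval (fun (i : W) v => η v i / θ v i)
            (Pi.evalRingHom k v) Q
          have h6 : (Pi.evalRingHom k v) ((MvPolynomial.aeval (fun (i : W) v => η v i / θ v i)) Q) =
            (MvPolynomial.aeval (fun (i : W) v => η v i / θ v i) Q) v := rfl
          rw [← h6, h5, MvPolynomial.aeval_def, MvPolynomial.coe_eval₂Hom]
          congr 1
        rw [e3] at hv
        have h7 := hind v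
        rw [algebraicIndependent_iff] at h7
        have h8 := h7 (MvPolynomial.map (Int.castRingHom (𝓞 K ⧸ v.1.asIdeal)) Q) (by
          rw [← hv, MvPolynomial.aeval_def, MvPolynomial.eval₂_map, MvPolynomial.aeval_def]
          congr 1
          exact RingHom.ext_int _ _)
        have h9 := congrArg (MvPolynomial.coeff d) h8
        rw [MvPolynomial.coeff_map, MvPolynomial.coeff_zero, eq_intCast] at h9
        have h10 : Ideal.Quotient.mk v.1.asIdeal ((Q.coeff d : ℤ) : 𝓞 K) = 0 := by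
          rw [map_intCast]
          exact h9
        exact Ideal.Quotient.eq_zero_iff_mem.1 h10
      have halgZ : Algebra.IsAlgebraic ℤ K :=
        (IsFractionRing.comap_isAlgebraic_iff (A := ℤ) (K := ℚ) (C := K)).2 inferInstance
      exact h0.extendScalars K)
  have hnot : ∀ f : ∀ v, k v, mk f ≠ 0 →
      ∀ᶠ v in (hyperfilter (Bad W) : Filter (Bad W)), f v ≠ 0 := fun f hf =>
    Ultrafilter.eventually_not.2 fun h => hf ((hmk0 _).2 h)
  have hfree : ∀ᶠ v in (hyperfilter (Bad W) : Filter (Bad W)), D.Free (η v) (θ v) S J := by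
    have h1 : ∀ᶠ v in (hyperfilter (Bad W) : Filter (Bad W)), ∀ i ∈ S, θ v (Sum.inl i) ≠ 0 := by
      rw [Filter.eventually_all_finset]
      exact fun i hi => hnot _ (hS1 i hi)
    have h2 : ∀ᶠ v in (hyperfilter (Bad W) : Filter (Bad W)), ∀ i ∈ S, ∀ j ∈ S, i ≠ j →
        ¬ D.Linked (η v) (θ v) i j := by
      rw [Filter.eventually_all_finset]
      intro i hi
      rw [Filter.eventually_all_finset]
      intro j hj
      by_cases hij : i = j
      · exact Filter.Eventually.of_forall fun v h => absurd hij h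
      · have h3 : ∀ᶠ v in (hyperfilter (Bad W) : Filter (Bad W)),
            ¬ D.Linked (η v) (θ v) i j := by
          refine Ultrafilter.eventually_not.2 fun h => hS2 i hi j hj hij ?_
          unfold Degeneration.Linked
          rw [← hdiv, ← hdiv, ← map_natCast mk, ← map_natCast mk, ← map_mul, ← map_mul]
          apply hmkeq
          filter_upwards [h] with v hv
          exact hv
        filter_upwards [h3] with v hv _
        exact hv
    have h3 : ∀ᶠ v in (hyperfilter (Bad W) : Filter (Bad W)), ∀ j ∈ J, θ v (Sum.inr j) ≠ 0 := by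
      rw [Filter.eventually_all_finset]
      exact fun i hi => hnot _ (hJ0 i hi)
    have h4 : ∀ᶠ v in (hyperfilter (Bad W) : Filter (Bad W)), ∀ j ∈ J, D.o j = 0 →
        η v (Sum.inr j) ≠ 0 := by
      rw [Filter.eventually_all_finset]
      intro j hj
      by_cases h0 : D.o j = 0
      · filter_upwards [hnot _ (hJ1 j hj h0)] with v hv _
        exact hv
      · exact Filter.Eventually.of_forall fun v h => absurd h h0
    have h5 : ∀ᶠ v in (hyperfilter (Bad W) : Filter (Bad W)), ∀ i ∈ J, ∀ j ∈ J, i ≠ j →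
        ¬ D.LinkedT (η v) (θ v) i j := by
      rw [Filter.eventually_all_finset]
      intro i hi
      rw [Filter.eventually_all_finset]
      intro j hj
      by_cases hij : i = j
      · exact Filter.Eventually.of_forall fun v h => absurd hij h
      · have h3 : ∀ᶠ v in (hyperfilter (Bad W) : Filter (Bad W)),
            ¬ D.LinkedT (η v) (θ v) i j := by
          refine Ultrafilter.eventually_not.2 fun h => hJ2 i hi j hj hij ?_
          unfold Degeneration.LinkedT
          rw [← hdiv, ← hdiv, ← map_intCast mk, ← map_intCast mk, ← map_mul, ← map_mul]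
          apply hmkeq
          filter_upwards [h] with v hv
          exact hv
        filter_upwards [h3] with v hv _
        exact hv
    filter_upwards [h1, h2, h3, h4, h5] with v h1 h2 h3 h4 h5
    exact ⟨h1, h2, h3, h4, h5⟩
  obtain ⟨v, hv⟩ := hfree.exists
  exact hS v S J hv hJc hcount

/-- the form as in the helper files -/
def toForm {R : Type} {s : ℕ} (F : MultiForm R s) :
    Pool.Agent.U854.SA.Form R (Fin s) := ⟨F.deg, F.coeff⟩

theorem eval_scale {R k : Type} [CommRing R] [CommRing k] {s : ℕ}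
    (F : MultiForm R s) (π : R →+* k) (l a b : Fin s → k) :
    F.eval π (fun i => l i * a i) (fun i => l i * b i) = F.eval π a b * ∏ i, l i ^ F.deg i :=
  Pool.Agent.U854.SA.Form.eval_scale (toForm F) π l a b

/-- relations supported outside a small set -/
theorem exists_relation {k : ℕ} (M : Submodule ℤ (Fin k → ℤ)) (B : Finset (Fin k))
    (h : B.card < Module.finrank ℤ M) : ∃ a ∈ M, a ≠ 0 ∧ ∀ j ∈ B, a j = 0 := by
  classical
  by_contra hcon
  push Not at hcon
  let f : M →ₗ[ℤ] (B → ℤ) :=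
    (LinearMap.funLeft ℤ ℤ (fun j : B => (j : Fin k))).comp M.subtype
  have hf : Function.Injective f := by
    rw [injective_iff_map_eq_zero]
    intro a ha
    by_contra hne
    obtain ⟨j, hj, hj'⟩ := hcon a a.2 (fun h => hne (Subtype.ext h))
    exact hj' (congrFun ha ⟨j, hj⟩)
  have h1 := LinearMap.finrank_le_finrank_of_injective hf
  rw [Module.finrank_pi, Fintype.card_coe] at h1
  omega

theorem main_pt {K : Type} [Field K] [NumberField K] {n k₁ m : ℕ} (σ : K →+* ℂ)
    (D : Degeneration K n k₁) (v : HeightOneSpectrum (𝓞 K)) {p : ℕ} (hp : p.Prime)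
    (hpv : (p : 𝓞 K) ∈ v.asIdeal)
    (hD : D.PositionOver m (𝓞 K ⧸ v.asIdeal) (Ideal.Quotient.mk v.asIdeal)) (a : K)
    (ha0 : aeval a D.P ≠ 0) (ha : v.valuation K (a - D.b) < 1)
    (haP : v.valuation K (aeval a D.P) < 1)
    (ha' : v.valuation K (aeval a D.P) ^ (D.h * (p - 1)) < v.valuation K p)
    {r : ℕ} (Z : SpecialVariety n r) (R : Submodule ℤ (Fin k₁ → ℤ)) {ρ : Fin k₁ → ℂ}
    (hρ : ∀ j, ∃ N : ℕ, 0 < N ∧ ρ j ^ N = 1) {x : Fin n ⊕ Fin k₁ → ℂ} (hxX : x ∈ D.member σ a)
    (hxZ : (fun i => x (Sum.inl i)) ∈ Z.locus) (hxR : (fun j => x (Sum.inr j)) ∈ coset R ρ)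
    (W : Finset (Fin n ⊕ Fin k₁)) (hW : AlgebraicIndependent ℚ (fun i : W => x i)) :
    n + Module.finrank ℤ R + W.card ≤ m + r := by
  classical
  obtain ⟨ξ, ζ, hξζ, hH, hx⟩ := hxX
  set ι := spec σ a with hι
  have hω0 : ∀ i, (D.ω i : K) ≠ 0 := by
    intro i h
    obtain ⟨r', hr', h'⟩ := D.root i
    have h2 : D.ω i = 0 := by exact_mod_cast h
    rw [h2, zero_pow hr'.ne'] at h'
    exact zero_ne_one h'
  set δ := σ (aeval a D.P) with hδ
  have hδC : δ ≠ 0 := (map_ne_zero σ).2 ha0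
  have hc0 : ∀ i, (D.ω i : K) * (aeval a D.P) ^ D.ord i ≠ 0 := fun i =>
    mul_ne_zero (hω0 i) (zpow_ne_zero _ ha0)
  let y : Fin n ⊕ Fin k₁ → ℂ := fun i => (D.N i).eval ι ξ ζ / (D.M i).eval ι ξ ζ
  have hxy : ∀ i, x i = σ (D.ω i) * δ ^ D.ord i * (1 + δ ^ D.h * y i) := fun i => (hx i).2
  -- the coordinates `y`
  have hWy : AlgebraicIndependent ℚ (fun i : W => y i) := by
    let _ : Algebra K ℂ := σ.toAlgebra
    have hKx : AlgebraicIndependent K (fun i : W => x i) := hW.extendScalars K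
    have hKy : AlgebraicIndependent K (fun i : W => y i) :=
      Pool.Agent.N135.ZO.indep_affine (fun i : W => (D.ω i : K) * (aeval a D.P) ^ D.ord i)
        (fun i : W => (D.ω i : K) * (aeval a D.P) ^ D.ord i * (aeval a D.P) ^ D.h)
        (fun i => mul_ne_zero (hc0 i) (pow_ne_zero _ ha0))
        (fun i => by
          have e1 : (algebraMap K ℂ) = σ := rfl
          rw [hxy i, e1]
          simp only [map_mul, map_zpow₀, map_pow, ← hδ]
          ring) hKx
    exact hKy.restrictScalars (algebraMap ℚ K).injective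
  let a₁ : Fin D.s ⊕ (Fin n ⊕ Fin k₁) → ℂ := Sum.elim ξ (fun i => (D.N i).eval ι ξ ζ)
  let b₁ : Fin D.s ⊕ (Fin n ⊕ Fin k₁) → ℂ := Sum.elim ζ (fun i => (D.M i).eval ι ξ ζ)
  have hab : ∀ i, a₁ i ≠ 0 ∨ b₁ i ≠ 0 := by
    rintro (j | i)
    · exact hξζ j
    · exact Or.inr (hx i).1
  let W₁ : Finset (Fin D.s ⊕ (Fin n ⊕ Fin k₁)) := W.map ⟨Sum.inr, Sum.inr_injective⟩
  have hW₁ : AlgebraicIndependent ℚ (fun i : W₁ => a₁ i / b₁ i) := by
    have hex : ∀ i : W₁, ∃ j : W, (Sum.inr (j : Fin n ⊕ Fin k₁) : Fin D.s ⊕ (Fin n ⊕ Fin k₁)) = i := by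
      rintro ⟨i, hi⟩
      obtain ⟨j, hj, hij⟩ := Finset.mem_map.1 hi
      exact ⟨⟨j, hj⟩, hij⟩
    choose f hf using hex
    have hfi : Function.Injective f := by
      intro i i' h
      apply Subtype.ext
      rw [← hf i, ← hf i', h]
    have h1 := hWy.comp f hfi
    have e : (fun i : W₁ => a₁ i / b₁ i) = (fun i : W => y i) ∘ f := by
      funext i
      rw [← hf i]
      rfl
    rw [e]
    exact h1
  obtain ⟨V, hA1, hA2, -, π₀, k', hk, hkA, res, l, ξ', ζ', hπ₀, hresπ₀, hres, hl, hξ', hζ', hne,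
    hind⟩ := Pool.Agent.U854.SA.place_res σ v hp hpv hab W₁ hW₁
  have hpV : V.valuation (p : ℂ) < 1 := by
    have := (hA2 (p : 𝓞 K)).2 hpv
    simpa using this
  have hpK : (p : K) ≠ 0 := by exact_mod_cast hp.ne_zero
  have hpC : (p : ℂ) ≠ 0 := by exact_mod_cast hp.ne_zero
  have hδV : V.valuation δ < 1 := by
    have h3 := Pool.Agent.N135.ZO.val_pow_lt hA1 hA2 (x := aeval a D.P) (y := (1 : K)) one_ne_zero
      (by rw [map_one]; exact haP)
    rwa [map_one, map_one] at h3
  have hβV : V.valuation (σ (a - D.b)) < 1 := by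
    have h3 := Pool.Agent.N135.ZO.val_pow_lt hA1 hA2 (x := a - D.b) (y := (1 : K)) one_ne_zero
      (by rw [map_one]; exact ha)
    rwa [map_one, map_one] at h3
  have hβm : σ (a - D.b) ∈ V := (V.valuation_le_one_iff _).1 hβV.le
  have hbV : ((π₀ D.b : V) : ℂ) = σ D.b := RingHom.congr_fun hπ₀ D.b
  have haV : σ a ∈ V := by
    have h3 : σ a = ((π₀ D.b : V) : ℂ) + σ (a - D.b) := by
      rw [hbV, map_sub]
      ring
    rw [h3]
    exact add_mem (π₀ D.b).2 hβm
  let aV : V := ⟨σ a, haV⟩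
  let π : (𝓞 K)[X] →+* V := eval₂RingHom π₀ aV
  have hπ : V.subtype.comp π = ι := by
    refine Polynomial.ringHom_ext (fun c => ?_) ?_
    · show V.subtype (eval₂ π₀ aV (C c)) = eval₂ (σ.comp (algebraMap (𝓞 K) K)) (σ a) (C c)
      rw [eval₂_C, eval₂_C]
      exact RingHom.congr_fun hπ₀ c
    · show V.subtype (eval₂ π₀ aV X) = eval₂ (σ.comp (algebraMap (𝓞 K) K)) (σ a) X
      rw [eval₂_X, eval₂_X]
      rfl
  have hresπ : ((algebraMap (𝓞 K ⧸ v.asIdeal) k').comp (Ideal.Quotient.mk v.asIdeal)).comp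
      (evalRingHom D.b) = res.comp π := by
    rw [hresπ₀]
    refine Polynomial.ringHom_ext (fun c => ?_) ?_
    · show res (π₀ (eval D.b (C c))) = res (eval₂ π₀ aV (C c))
      rw [eval₂_C, eval_C]
    · show res (π₀ (eval D.b X)) = res (eval₂ π₀ aV X)
      rw [eval₂_X, eval_X, eq_comm, ← sub_eq_zero, ← map_sub, hres]
      have h3 : ((aV - π₀ D.b : V) : ℂ) = σ (a - D.b) := by
        show σ a - ((π₀ D.b : V) : ℂ) = σ (a - D.b)
        rw [hbV, map_sub]
      rw [h3]
      exact hβV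
  -- the values of the forms at the normalized coordinates
  have hVal : ∀ (G : MultiForm (𝓞 K)[X] D.s),
      ((G.eval π (fun j => ξ' (Sum.inl j)) (fun j => ζ' (Sum.inl j)) : V) : ℂ) =
        G.eval ι ξ ζ * ∏ j, l (Sum.inl j) ^ G.deg j := by
    intro G
    have h3 := map_eval G π V.subtype (fun j => ξ' (Sum.inl j)) (fun j => ζ' (Sum.inl j))
    have h5 : (fun j => V.subtype (ξ' (Sum.inl j))) = fun j => l (Sum.inl j) * ξ j :=
      funext fun j => hξ' (Sum.inl j)
    have h6 : (fun j => V.subtype (ζ' (Sum.inl j))) = fun j => l (Sum.inl j) * ζ j :=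
      funext fun j => hζ' (Sum.inl j)
    rw [hπ, h5, h6, eval_scale] at h3
    exact h3
  have hRes : ∀ (G : MultiForm (𝓞 K)[X] D.s),
      res (G.eval π (fun j => ξ' (Sum.inl j)) (fun j => ζ' (Sum.inl j))) =
        G.eval (((algebraMap (𝓞 K ⧸ v.asIdeal) k').comp (Ideal.Quotient.mk v.asIdeal)).comp
          (evalRingHom D.b)) (fun j => res (ξ' (Sum.inl j))) (fun j => res (ζ' (Sum.inl j))) := by
    intro G
    rw [hresπ]
    exact map_eval G π res _ _
  have hgraph : D.OnGraph ((algebraMap (𝓞 K ⧸ v.asIdeal) k').comp (Ideal.Quotient.mk v.asIdeal))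
      (fun j => res (ξ' (Sum.inl j)))
      (fun j => res (ζ' (Sum.inl j))) (fun i => res (ξ' (Sum.inr i)))
      (fun i => res (ζ' (Sum.inr i))) := by
    refine ⟨fun j => hne (Sum.inl j), fun i => hne (Sum.inr i), fun t => ?_, fun i => ?_⟩
    · rw [← hRes]
      have h2 : (D.H t).eval π (fun j => ξ' (Sum.inl j)) (fun j => ζ' (Sum.inl j)) = 0 := by
        apply Subtype.ext
        rw [hVal, hH t, zero_mul]
        rfl
      rw [h2, map_zero]
    · rw [← hRes, ← hRes, ← map_mul, ← map_mul]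
      congr 1
      apply Subtype.ext
      push_cast
      rw [hVal, hVal, D.deg_eq i]
      have e1 : (ξ' (Sum.inr i) : ℂ) = l (Sum.inr i) * (D.N i).eval ι ξ ζ := hξ' (Sum.inr i)
      have e2 : (ζ' (Sum.inr i) : ℂ) = l (Sum.inr i) * (D.M i).eval ι ξ ζ := hζ' (Sum.inr i)
      rw [e1, e2]
      ring
  have hind' : AlgebraicIndependent (𝓞 K ⧸ v.asIdeal)
      (fun i : W => res (ξ' (Sum.inr (i : Fin n ⊕ Fin k₁))) /
        res (ζ' (Sum.inr (i : Fin n ⊕ Fin k₁)))) :=
    hind.comp (fun i : W => (⟨Sum.inr (i : Fin n ⊕ Fin k₁),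
        Finset.mem_map.2 ⟨i, i.2, rfl⟩⟩ : W₁))
      (fun i i' h => Subtype.ext (Sum.inr_injective (congrArg Subtype.val h)))
  obtain ⟨S, J, ⟨hS1, hS2, hJ0, hJ1, hJ2⟩, hJc, hcount⟩ := hD k' _ _ _ _ hgraph W hind'
  have hunit : ∀ z : V, res z ≠ 0 → V.valuation (z : ℂ) = 1 := by
    intro z hz
    refine le_antisymm ((V.valuation_le_one_iff _).2 z.2) (not_lt.1 fun h => ?_)
    exact hz ((hres z).2 h)
  have hyq : ∀ i, y i = (ξ' (Sum.inr i) : ℂ) / (ζ' (Sum.inr i) : ℂ) := by
    intro i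
    have e1 : (ξ' (Sum.inr i) : ℂ) = l (Sum.inr i) * (D.N i).eval ι ξ ζ := hξ' (Sum.inr i)
    have e2 : (ζ' (Sum.inr i) : ℂ) = l (Sum.inr i) * (D.M i).eval ι ξ ζ := hζ' (Sum.inr i)
    rw [e1, e2, mul_div_mul_left _ _ (hl _)]
  have hy1 : ∀ i ∈ S, V.valuation (y (Sum.inl i)) ≤ 1 := by
    intro i hi
    rw [hyq, map_div₀, hunit _ (hS1 i hi), div_one]
    exact (V.valuation_le_one_iff _).2 (ξ' (Sum.inr (Sum.inl i))).2
  have hνC : δ ^ D.h ≠ 0 := pow_ne_zero _ hδC
  have hνV : V.valuation (δ ^ D.h) ^ (p - 1) < V.valuation (p : ℂ) := by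
    have h3 := Pool.Agent.N135.ZO.val_pow_lt hA1 hA2 (x := (aeval a D.P) ^ (D.h * (p - 1)))
      (y := (p : K)) hpK (by rw [map_pow]; exact ha')
    rw [map_pow, map_natCast] at h3
    rw [← map_pow, ← pow_mul]
    exact h3
  have hδpos : 0 < V.valuation δ := zero_lt_iff.2 ((Valuation.ne_zero_iff _).2 hδC)
  have heV : ∀ i, V.valuation δ ^ D.e i < V.valuation (δ ^ D.h) := by
    intro i
    rw [map_pow]
    exact pow_lt_pow_right_of_lt_one₀ hδpos hδV (D.h_lt i)
  have hroot : ∀ i, ∃ r : ℕ, 0 < r ∧ σ (D.ω i) ^ r = 1 := by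
    intro i
    obtain ⟨r', hr', h'⟩ := D.root i
    refine ⟨r', hr', ?_⟩
    have h4 : ((D.ω i : K)) ^ r' = 1 := by exact_mod_cast congrArg (algebraMap (𝓞 K) K) h'
    rw [← map_pow, h4, map_one]
  have hxe : ∀ i : Fin n, x (Sum.inl i) * δ ^ D.e i =
      σ (D.ω (Sum.inl i)) * (1 + δ ^ D.h * y (Sum.inl i)) := by
    intro i
    have e1 : δ ^ D.ord (Sum.inl i) * δ ^ D.e i = 1 := by
      show δ ^ (-(D.e i : ℤ)) * δ ^ D.e i = 1
      rw [zpow_neg, zpow_natCast, inv_mul_cancel₀ (pow_ne_zero _ hδC)]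
    rw [hxy (Sum.inl i)]
    linear_combination (σ (D.ω (Sum.inl i)) * (1 + δ ^ D.h * y (Sum.inl i))) * e1
  obtain ⟨z, hz⟩ := hxZ
  have he0 : ∀ i, 0 < D.e i := fun i => D.h_pos.trans (D.h_lt i)
  have hν1 : V.valuation (δ ^ D.h) < 1 := by
    rw [map_pow]
    exact pow_lt_one₀ zero_le hδV D.h_pos.ne'
  have hxlarge : ∀ i ∈ S, 1 < V.valuation (x (Sum.inl i)) := by
    intro i hi
    obtain ⟨r', hr', h'⟩ := hroot (Sum.inl i)
    have e1 : V.valuation (1 + δ ^ D.h * y (Sum.inl i)) = 1 := by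
      refine Pool.Agent.U854.OP.val_one_add V ?_
      rw [map_mul]
      exact (mul_le_of_le_one_right' (hy1 i hi)).trans_lt hν1
    have h3 := congrArg V.valuation (hxe i)
    rw [map_mul, map_pow, map_mul, e1, mul_one,
      Pool.Agent.W282.ZP.val_root_of_unity V hr' h'] at h3
    by_contra hcon
    have h4 : V.valuation δ ^ D.e i < 1 := pow_lt_one₀ zero_le hδV (he0 i).ne'
    have h5 : V.valuation (x (Sum.inl i)) * V.valuation δ ^ D.e i < 1 :=
      (mul_le_of_le_one_left' (not_lt.1 hcon)).trans_lt h4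
    rw [h3] at h5
    exact lt_irrefl _ h5
  have hnone : ∀ i ∈ S, Z.cls i ≠ none := by
    intro i hi hn
    have h3 := hxlarge i hi
    have hzi : x (Sum.inl i) = jj (Z.cm i) := (hz i).1 hn
    rw [hzi] at h3
    have h4 : V.valuation (jj (Z.cm i)) ≤ 1 := by
      have h5 := Pool.Agent.W282.ZP.val_le_of_integral (K := ℂ) V
        (singular_modulus_integral _ (Z.isCM i))
      simpa using h5
    exact absurd h3 (not_lt.2 h4)
  have hcard : S.card ≤ r := by
    refine Pool.Agent.U854.CL.card_le_classes Z.cls S hnone ?_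
    intro i hi j hj hij hcls
    apply hS2 i hi j hj hij
    obtain ⟨l', hl'⟩ := Option.ne_none_iff_exists'.1 (hnone i hi)
    obtain ⟨w, hw1, hw2⟩ := (hz i).2 l' hl'
    obtain ⟨w', hw1', hw2'⟩ := (hz j).2 l' (hcls ▸ hl')
    obtain ⟨A, hA, hrel⟩ := Pool.Agent.N135.ZO.rel_of_two (M := Z.mat i) (M' := Z.mat j)
      (z := z l') (Z.det_pos i) (Z.det_pos j) hw1 hw1'
    have hw2i : x (Sum.inl i) = jj w := hw2
    have hw2j : x (Sum.inl j) = jj w' := hw2'
    have hlaw := Pool.Agent.U854.CQ.near_law hp hpV hδC hδV hνC hνV (he0 i) (he0 j)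
      (heV i) (heV j) (hroot (Sum.inl i)) (hroot (Sum.inl j)) (hy1 i hi) (hy1 j hj)
      (by rw [← hw2i]; exact hxe i) (by rw [← hw2j]; exact hxe j) hA hrel
    set a' := D.e i / Nat.gcd (D.e i) (D.e j) with ha'
    set d' := D.e j / Nat.gcd (D.e i) (D.e j) with hd'
    obtain ⟨ξi, hξi⟩ : ∃ z, z = ξ' (Sum.inr (Sum.inl i)) := ⟨_, rfl⟩
    obtain ⟨ξj, hξj⟩ : ∃ z, z = ξ' (Sum.inr (Sum.inl j)) := ⟨_, rfl⟩
    obtain ⟨ζi, hζi'⟩ : ∃ z, z = ζ' (Sum.inr (Sum.inl i)) := ⟨_, rfl⟩
    obtain ⟨ζj, hζj'⟩ : ∃ z, z = ζ' (Sum.inr (Sum.inl j)) := ⟨_, rfl⟩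
    have g1 : res ζi ≠ 0 := by rw [hζi']; exact hS1 i hi
    have g2 : res ζj ≠ 0 := by rw [hζj']; exact hS1 j hj
    have hζi : (ζi : ℂ) ≠ 0 := by
      rw [← V.valuation.ne_zero_iff, hunit _ g1]
      exact one_ne_zero
    have hζj : (ζj : ℂ) ≠ 0 := by
      rw [← V.valuation.ne_zero_iff, hunit _ g2]
      exact one_ne_zero
    have e2 : ((a' * ξj * ζi - d' * ξi * ζj : V) : ℂ) =
        ((a' : ℂ) * y (Sum.inl j) - (d' : ℂ) * y (Sum.inl i)) * ((ζi : ℂ) * (ζj : ℂ)) := by
      rw [hyq (Sum.inl i), hyq (Sum.inl j), ← hξi, ← hξj, ← hζi', ← hζj']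
      push_cast
      field_simp
    have h0 : res (a' * ξj * ζi - d' * ξi * ζj) = 0 := by
      rw [hres, e2, map_mul, map_mul, hunit _ g1, hunit _ g2, mul_one, mul_one]
      exact hlaw
    rw [map_sub, map_mul, map_mul, map_mul, map_mul, map_natCast, map_natCast] at h0
    show (a' : k') * (res (ξ' (Sum.inr (Sum.inl j))) / res (ζ' (Sum.inr (Sum.inl j)))) =
      (d' : k') * (res (ξ' (Sum.inr (Sum.inl i))) / res (ζ' (Sum.inr (Sum.inl i))))
    rw [← hξi, ← hξj, ← hζi', ← hζj', ← mul_div_assoc, ← mul_div_assoc, div_eq_div_iff g2 g1]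
    linear_combination h0
  -- the Kummer coordinates
  have hyJ : ∀ j ∈ J, V.valuation (y (Sum.inr j)) ≤ 1 := by
    intro j hj
    rw [hyq, map_div₀, hunit _ (hJ0 j hj), div_one]
    exact (V.valuation_le_one_iff _).2 (ξ' (Sum.inr (Sum.inr j))).2
  have hyJ1 : ∀ j ∈ J, D.o j ≠ 0 ∨ V.valuation (y (Sum.inr j)) = 1 := by
    intro j hj
    by_cases h0 : D.o j = 0
    · right
      rw [hyq, map_div₀, hunit _ (hJ0 j hj), hunit _ (hJ1 j hj h0), div_one]
    · exact Or.inl h0
  have hlin : ∀ i ∈ J, ∀ j ∈ J, i ≠ j →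
      V.valuation (((D.o j / Int.gcd (D.o i) (D.o j) : ℤ) : ℂ) * y (Sum.inr i) -
        ((D.o i / Int.gcd (D.o i) (D.o j) : ℤ) : ℂ) * y (Sum.inr j)) = 1 := by
    intro i hi j hj hij
    have hnl := hJ2 i hi j hj hij
    obtain ⟨q, hq⟩ : ∃ q : ℤ, q = D.o i / Int.gcd (D.o i) (D.o j) := ⟨_, rfl⟩
    obtain ⟨q', hq'⟩ : ∃ q' : ℤ, q' = D.o j / Int.gcd (D.o i) (D.o j) := ⟨_, rfl⟩
    unfold Degeneration.LinkedT at hnl
    rw [← hq, ← hq'] at hnl ⊢
    obtain ⟨ξi, hξi⟩ : ∃ z, z = ξ' (Sum.inr (Sum.inr i)) := ⟨_, rfl⟩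
    obtain ⟨ξj, hξj⟩ : ∃ z, z = ξ' (Sum.inr (Sum.inr j)) := ⟨_, rfl⟩
    obtain ⟨ζi, hζi'⟩ : ∃ z, z = ζ' (Sum.inr (Sum.inr i)) := ⟨_, rfl⟩
    obtain ⟨ζj, hζj'⟩ : ∃ z, z = ζ' (Sum.inr (Sum.inr j)) := ⟨_, rfl⟩
    have g1 : res ζi ≠ 0 := by rw [hζi']; exact hJ0 i hi
    have g2 : res ζj ≠ 0 := by rw [hζj']; exact hJ0 j hj
    have hζi : (ζi : ℂ) ≠ 0 := by
      rw [← V.valuation.ne_zero_iff, hunit _ g1]
      exact one_ne_zero
    have hζj : (ζj : ℂ) ≠ 0 := by
      rw [← V.valuation.ne_zero_iff, hunit _ g2]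
      exact one_ne_zero
    have e2 : ((q' * ξi * ζj - q * ξj * ζi : V) : ℂ) =
        ((q' : ℂ) * y (Sum.inr i) - (q : ℂ) * y (Sum.inr j)) * ((ζi : ℂ) * (ζj : ℂ)) := by
      rw [hyq (Sum.inr i), hyq (Sum.inr j), ← hξi, ← hξj, ← hζi', ← hζj']
      push_cast
      field_simp
    have h0 : res (q' * ξi * ζj - q * ξj * ζi) ≠ 0 := by
      intro h0
      rw [map_sub, map_mul, map_mul, map_mul, map_mul, map_intCast, map_intCast] at h0
      apply hnl
      show (q' : k') * (res (ξ' (Sum.inr (Sum.inr i))) / res (ζ' (Sum.inr (Sum.inr i)))) =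
        (q : k') * (res (ξ' (Sum.inr (Sum.inr j))) / res (ζ' (Sum.inr (Sum.inr j))))
      rw [← hξi, ← hξj, ← hζi', ← hζj', ← mul_div_assoc, ← mul_div_assoc, div_eq_div_iff g1 g2]
      linear_combination h0
    have h3 := hunit _ h0
    rw [e2, map_mul, map_mul, hunit _ g1, hunit _ g2, mul_one, mul_one] at h3
    exact h3
  have htorus : ∀ c ∈ R, (∀ j, j ∉ J → c j = 0) → c = 0 := by
    intro c hcR hcJ
    have hrel : ∏ j, x (Sum.inr j) ^ c j = ∏ j, ρ j ^ c j := hxR.2 c hcR
    have hωC : ∀ i, σ (D.ω i) ≠ 0 := fun i => (map_ne_zero σ).2 (hω0 i)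
    have hord : ∀ j, ∃ N : ℕ, 0 < N ∧ (ρ j / σ (D.ω (Sum.inr j))) ^ N = 1 := by
      intro j
      obtain ⟨N₁, hN₁, h1⟩ := hρ j
      obtain ⟨N₂, hN₂, h2⟩ := hroot (Sum.inr j)
      refine ⟨N₁ * N₂, Nat.mul_pos hN₁ hN₂, ?_⟩
      rw [div_pow, pow_mul, h1, one_pow, mul_comm N₁, pow_mul, h2, one_pow, div_one]
    choose N hN hN1 using hord
    obtain ⟨u, hu⟩ : ∃ u : Fin k₁ → ℂ, u = fun j => δ ^ D.o j * (1 + δ ^ D.h * y (Sum.inr j)) :=
      ⟨_, rfl⟩
    have hprod : (∏ j, u j ^ c j) ^ (∏ j, N j) = 1 := by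
      have e1 : ∏ j, u j ^ c j = ∏ j, (ρ j / σ (D.ω (Sum.inr j))) ^ c j := by
        have e2 : ∀ w : Fin k₁ → ℂ, ∏ j, (w j / σ (D.ω (Sum.inr j))) ^ c j =
            (∏ j, w j ^ c j) / ∏ j, σ (D.ω (Sum.inr j)) ^ c j := by
          intro w
          rw [← Finset.prod_div_distrib]
          exact Finset.prod_congr rfl fun j _ => div_zpow _ _ _
        rw [e2 ρ, ← hrel, ← e2 (fun j => x (Sum.inr j))]
        refine Finset.prod_congr rfl fun j _ => ?_
        have e3 : x (Sum.inr j) = σ (D.ω (Sum.inr j)) * δ ^ D.o j *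
            (1 + δ ^ D.h * y (Sum.inr j)) := hxy (Sum.inr j)
        have e4 := hωC (Sum.inr j)
        rw [hu, e3]
        congr 1
        field_simp
      rw [e1, ← Finset.prod_pow]
      refine Finset.prod_eq_one fun j _ => ?_
      obtain ⟨q, hq⟩ := Finset.dvd_prod_of_mem N (Finset.mem_univ j)
      rw [hq, ← zpow_natCast, ← zpow_mul, mul_comm, zpow_mul, zpow_natCast, pow_mul, hN1, one_pow,
        one_zpow]
    have hNpos : 0 < ∏ j, N j := Finset.prod_pos fun j _ => hN j
    funext l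
    by_cases hl : l ∈ J
    swap
    · exact hcJ l hl
    have hcard' : J.card = 1 ∨ J.card = 2 := by
      have : 0 < J.card := Finset.card_pos.2 ⟨l, hl⟩
      omega
    rcases hcard' with h1 | h2
    · obtain ⟨j, hj⟩ := Finset.card_eq_one.1 h1
      have hjJ : j ∈ J := by rw [hj]; exact Finset.mem_singleton_self j
      have hlj : l = j := by rw [hj] at hl; exact Finset.mem_singleton.1 hl
      rw [Fintype.prod_eq_single j (fun j' hj' => by
        rw [hcJ j' (by rw [hj]; exact fun h => hj' (Finset.mem_singleton.1 h)), zpow_zero]), hu]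
        at hprod
      rw [hlj]
      exact Pool.Agent.U854.DM.tor_one hp hpV hδC hδV hνV (hyJ j hjJ) (hyJ1 j hjJ) D.h_pos hNpos
        hprod
    · obtain ⟨i, j, hij, hJe⟩ := Finset.card_eq_two.1 h2
      have hiJ : i ∈ J := by rw [hJe]; simp
      have hjJ : j ∈ J := by rw [hJe]; simp
      rw [Fintype.prod_eq_mul i j hij (fun j' hj' => by
        rw [hcJ j' (by
          rw [hJe]
          intro h
          rcases Finset.mem_insert.1 h with h | h
          · exact hj'.1 h
          · exact hj'.2 (Finset.mem_singleton.1 h)), zpow_zero]), hu] at hprod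
      have h3 := Pool.Agent.U854.DM.tor_two hp hpV hδC hδV hνV (hyJ i hiJ) (hyJ j hjJ) D.h_pos
        (hlin i hiJ j hjJ hij) hNpos hprod
      rw [hJe] at hl
      rcases Finset.mem_insert.1 hl with h | h
      · rw [h]; exact h3.1
      · rw [Finset.mem_singleton.1 h]; exact h3.2
  have hcardJ : Module.finrank ℤ R + J.card ≤ k₁ := by
    by_contra hlt
    push Not at hlt
    have h1 : (Finset.univ \ J).card < Module.finrank ℤ R := by
      have h2 := Finset.card_sdiff_add_card_eq_card (Finset.subset_univ J)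
      rw [Finset.card_univ, Fintype.card_fin] at h2
      omega
    obtain ⟨c, hcR, hc0', hc⟩ := exists_relation R _ h1
    exact hc0' (htorus c hcR fun j hj => hc j (Finset.mem_sdiff.2 ⟨Finset.mem_univ j, hj⟩))
  omega

theorem of_pt {n k m : ℕ} (X : Set (Fin n ⊕ Fin k → ℂ))
    (hpt : ∀ (r : ℕ) (Z : SpecialVariety n r) (M : Submodule ℤ (Fin k → ℤ)) (η : Fin k → ℂ),
      (∀ j, ∃ N : ℕ, 0 < N ∧ η j ^ N = 1) →
      ∀ x ∈ X, (fun i => x (Sum.inl i)) ∈ Z.locus → (fun j => x (Sum.inr j)) ∈ coset M η →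
      ∀ W : Finset (Fin n ⊕ Fin k), AlgebraicIndependent ℚ (fun i : W => x i) →
        n + Module.finrank ℤ M + W.card ≤ m + r) : NoAtypicalHodge X m := by
  intro r Z M η hη
  refine ⟨hpt r Z M η hη, ?_⟩
  intro A g hA hcl hprime hg
  obtain ⟨w, hwA, hw0, T, hT, hdim⟩ := Pool.Agent.W282.SI.generic_dim' ℚ A hprime
    (β := Unit) (fun _ => g) fun _ => hg
  obtain ⟨h1, h2, h3⟩ := hA w (hcl hwA) (hw0 ())
  have h := hpt r Z M η hη w h1 h2 h3 T hT
  calc (n : Cardinal) + (Module.finrank ℤ M : Cardinal) + zdim A ≤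
        (n : Cardinal) + (Module.finrank ℤ M : Cardinal) + (T.card : Cardinal) := by gcongr
    _ = ((n + Module.finrank ℤ M + T.card : ℕ) : Cardinal) := by push_cast; rfl
    _ ≤ ((m + r : ℕ) : Cardinal) := by exact_mod_cast h
    _ = (m : Cardinal) + (r : Cardinal) := by push_cast; rfl

theorem Degeneration.Position.over {D : Degeneration K n k} [CharZero K] {m : ℕ}
    (h : D.Position m) : D.PositionOver m K (algebraMap (𝓞 K) K) := by
  intro κ _ _ ξ ζ η θ hgr W hW
  obtain ⟨S, J, h1, h2, h3, h4, h5, h6⟩ := h κ ξ ζ η θ hgr W hW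
  refine ⟨S, J, ⟨h1, fun i hi j hj hij hl => h2 i hi j hj hij ?_, fun j hj => (h3 j hj).1,
    fun j hj h0 => (h3 j hj).2.resolve_left fun h => h h0,
    fun i hi j hj hij hl => h4 i hi j hj hij ?_⟩, h5, h6⟩
  · have hk : CharZero κ := charZero_of_injective_algebraMap (algebraMap K κ).injective
    have hei : (D.e i : κ) ≠ 0 := by exact_mod_cast (D.h_pos.trans (D.h_lt i)).ne'
    have hej : (D.e j : κ) ≠ 0 := by exact_mod_cast (D.h_pos.trans (D.h_lt j)).ne'
    unfold Degeneration.Linked at hl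
    set g := Nat.gcd (D.e i) (D.e j) with hg
    have e1 : ((g : ℕ) : κ) * ((D.e i / g : ℕ) : κ) = D.e i := by
      exact_mod_cast congrArg (Nat.cast : ℕ → κ) (Nat.mul_div_cancel' (Nat.gcd_dvd_left _ _))
    have e2 : ((g : ℕ) : κ) * ((D.e j / g : ℕ) : κ) = D.e j := by
      exact_mod_cast congrArg (Nat.cast : ℕ → κ) (Nat.mul_div_cancel' (Nat.gcd_dvd_right _ _))
    rw [div_eq_div_iff hei hej, ← e1, ← e2]
    linear_combination (-(g : κ)) * hl
  · unfold Degeneration.LinkedT at hl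
    obtain ⟨g, hg⟩ : ∃ g : ℤ, g = (Int.gcd (D.o i) (D.o j) : ℤ) := ⟨_, rfl⟩
    rw [← hg] at hl
    have e1 : D.o i = g * (D.o i / g) := by
      rw [hg, Int.mul_ediv_cancel' (Int.gcd_dvd_left ..)]
    have e2 : D.o j = g * (D.o j / g) := by
      rw [hg, Int.mul_ediv_cancel' (Int.gcd_dvd_right ..)]
    have e1' : (D.o i : κ) = (g : κ) * ((D.o i / g : ℤ) : κ) := by exact_mod_cast congrArg (Int.cast : ℤ → κ) e1
    have e2' : (D.o j : κ) = (g : κ) * ((D.o j / g : ℤ) : κ) := by exact_mod_cast congrArg (Int.cast : ℤ → κ) e2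
    rw [e1', e2']
    linear_combination (g : κ) * hl

theorem NoAtypicalHodge.mono {X Y : Set (Fin n ⊕ Fin k → ℂ)} {m : ℕ} (h : NoAtypicalHodge Y m)
    (hXY : X ⊆ Y) : NoAtypicalHodge X m := by
  intro r Z M η hη
  obtain ⟨h1, h2⟩ := h r Z M η hη
  exact ⟨fun x hx => h1 x (hXY hx), fun A g hA => h2 A g fun w hw hg =>
    ⟨hXY (hA w hw hg).1, (hA w hw hg).2⟩⟩

variable [NumberField K]

theorem one_cusp (σ : K →+* ℂ) {m : ℕ} (D : Degeneration K n k) (hD : D.Position m) :
    ∃ S : Set (HeightOneSpectrum (𝓞 K)), S.Finite ∧ ∀ a : K, aeval a D.P ≠ 0 →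
      (∃ v ∉ S, v.valuation K (a - D.b) < 1) → NoAtypicalHodge (D.member σ a) m := by
  refine ⟨_, (spread D hD.over).union (fin_small (K := K) (Module.finrank ℚ K + 1)), ?_⟩
  rintro a ha0 ⟨v, hv, hva⟩
  rw [Set.mem_union, not_or] at hv
  obtain ⟨hv1, hv2⟩ := hv
  obtain ⟨p, hp, hpv⟩ := exists_prime v
  have hpos : D.PositionOver m (𝓞 K ⧸ v.asIdeal) (Ideal.Quotient.mk v.asIdeal) := not_not.1 hv1
  have hpd : Module.finrank ℚ K + 1 < p := by
    by_contra hcon
    exact hv2 ⟨p, not_lt.1 hcon, hp, hpv⟩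
  have haP := unif_lt v D.P D.isRoot hva
  exact of_pt _ fun r Z M η hη x hx hxZ hxR W hW => main_pt σ D v hp hpv hpos a ha0 hva haP
    (near_p v hp hpv hpd haP D.h_pos) Z M hη hx hxZ hxR W hW

theorem zeros_finite (P : (𝓞 K)[X]) (hP : P ≠ 0) : {a : K | aeval a P = 0}.Finite := by
  classical
  have h1 : P.map (algebraMap (𝓞 K) K) ≠ 0 := (Polynomial.map_ne_zero_iff
    (IsFractionRing.injective (𝓞 K) K)).2 hP
  refine ((P.map (algebraMap (𝓞 K) K)).roots.toFinset.finite_toSet).subset fun a ha => ?_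
  have ha' : aeval a P = 0 := ha
  simp only [Finset.mem_coe, Multiset.mem_toFinset]
  rw [Polynomial.mem_roots h1, Polynomial.IsRoot.def, Polynomial.eval_map_algebraMap]
  exact ha'

theorem three_cusps (σ : K →+* ℂ) {m : ℕ} (X : K → Set (Fin n ⊕ Fin k → ℂ))
    (D : Fin 3 → Degeneration K n k) (hD : ∀ l, (D l).Position m)
    (hb : Function.Injective fun l => (D l).b)
    (hX : ∀ l a, aeval a (D l).P ≠ 0 → X a ⊆ (D l).member σ a) :
    {a : K | ¬ NoAtypicalHodge (X a) m}.Finite := by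
  choose S hS hS' using fun l => one_cusp σ (D l) (hD l)
  have hSf : (⋃ l, S l).Finite := Set.finite_iUnion hS
  refine ((Set.finite_iUnion fun l => zeros_finite (D l).P (D l).P_ne).union
    (three_points (⋃ l, S l) hSf (fun l => (D l).b) hb)).subset ?_
  intro a ha
  by_cases h0 : ∃ l, aeval a (D l).P = 0
  · exact Or.inl (Set.mem_iUnion.2 h0)
  · push Not at h0
    right
    intro l
    refine ⟨?_, ?_⟩
    · rintro rfl
      apply h0 l
      have h1 := Polynomial.aeval_algebraMap_apply K (D l).b (D l).P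
      have h2 : aeval (D l).b (D l).P = 0 := by
        rw [Polynomial.coe_aeval_eq_eval]
        exact (D l).isRoot
      rw [h2, map_zero] at h1
      exact h1
    · intro v hv
      by_contra hcon
      refine ha (((hS' l) a (h0 l) ⟨v, fun h => hv (Set.mem_iUnion.2 ⟨l, h⟩), not_le.1 hcon⟩).mono
        (hX l a (h0 l)))

theorem two_cusps (σ : K →+* ℂ) {m : ℕ} (X : K → Set (Fin n ⊕ Fin k → ℂ))
    (D : Fin 2 → Degeneration K n k) (hD : ∀ l, (D l).Position m)
    (hb : Function.Injective fun l => (D l).b)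
    (hX : ∀ l a, aeval a (D l).P ≠ 0 → X a ⊆ (D l).member σ a)
    (S₀ : Set (HeightOneSpectrum (𝓞 K))) (hS₀ : S₀.Finite) :
    {a : K | (∀ v ∉ S₀, v.valuation K a ≤ 1) ∧ ¬ NoAtypicalHodge (X a) m}.Finite := by
  choose S hS hS' using fun l => one_cusp σ (D l) (hD l)
  have hSf : (S₀ ∪ ⋃ l, S l).Finite := hS₀.union (Set.finite_iUnion hS)
  refine ((Set.finite_iUnion fun l => zeros_finite (D l).P (D l).P_ne).union
    (two_points (S₀ ∪ ⋃ l, S l) hSf (fun l => (D l).b) hb)).subset ?_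
  rintro a ⟨ha₀, ha⟩
  by_cases h0 : ∃ l, aeval a (D l).P = 0
  · exact Or.inl (Set.mem_iUnion.2 h0)
  · push Not at h0
    right
    refine ⟨fun v hv => ha₀ v fun h => hv (Or.inl h), fun l => ⟨?_, ?_⟩⟩
    · rintro rfl
      apply h0 l
      have h1 := Polynomial.aeval_algebraMap_apply K (D l).b (D l).P
      have h2 : aeval (D l).b (D l).P = 0 := by
        rw [Polynomial.coe_aeval_eq_eval]
        exact (D l).isRoot
      rw [h2, map_zero] at h1
      exact h1
    · intro v hv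
      by_contra hcon
      refine ha (((hS' l) a (h0 l) ⟨v, fun h => hv (Or.inr (Set.mem_iUnion.2 ⟨l, h⟩)),
        not_le.1 hcon⟩).mono (hX l a (h0 l)))

/-- the linear form `α ξ + β ζ` -/
def linForm {R : Type} (α β : R) : MultiForm R 1 :=
  ⟨fun _ => 1, fun e => if (e 0 : ℕ) = 1 then α else β⟩

theorem linForm_eval {R κ : Type} [CommRing R] [CommRing κ] (α β : R) (π : R →+* κ)
    (ξ ζ : Fin 1 → κ) : (linForm α β).eval π ξ ζ = π α * ξ 0 + π β * ζ 0 := by
  have h := Pool.Agent.U854.SA.sum_prod (fun _ : Fin 1 => 1)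
    (fun _ j => π (if j = 1 then α else β)) ξ ζ
  simp only [Fin.prod_univ_one, Finset.sum_range_succ, Finset.sum_range_zero] at h
  unfold MultiForm.eval linForm
  simp only [Fin.prod_univ_one]
  rw [h]
  simp
  ring

omit [NumberField K] in
/-- the degeneration of `exampleVariation e (P a)` at a root `b` of `P` -/
noncomputable def exDeg (P : (𝓞 K)[X]) (hP : P ≠ 0) (b : 𝓞 K) (hb : P.eval b = 0)
    (e : Fin 2 → ℕ) (he : ∀ i, 1 < e i) : Degeneration K 2 1 where
  s := 1
  T := Empty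
  H := fun t => t.elim
  N := Sum.elim ![linForm (e 0 : (𝓞 K)[X]) 0, linForm 0 (e 1 : (𝓞 K)[X])]
    (fun _ => linForm 1 1)
  M := Sum.elim ![linForm 0 1, linForm 1 0] (fun _ => linForm 1 (-2))
  deg_eq := by
    rintro (i | i)
    · fin_cases i <;> rfl
    · rfl
  P := P
  P_ne := hP
  b := b
  isRoot := hb
  h := 1
  h_pos := one_pos
  e := e
  h_lt := he
  o := fun _ => 1
  ω := fun _ => 1
  root := fun _ => ⟨1, one_pos, one_pow _⟩

theorem j_formula (J : ℂ)
    (h : 4 * (-3 * J * (J - 1728)) ^ 3 + 27 * (-2 * J * (J - 1728) ^ 2) ^ 2 ≠ 0) :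
    6912 * (-3 * J * (J - 1728)) ^ 3 /
      (4 * (-3 * J * (J - 1728)) ^ 3 + 27 * (-2 * J * (J - 1728) ^ 2) ^ 2) = J := by
  rw [div_eq_iff h]
  ring

omit [NumberField K] in
theorem ex_member (σ : K →+* ℂ) (P : (𝓞 K)[X]) (hP : P ≠ 0) (b : 𝓞 K) (hb : P.eval b = 0)
    (e : Fin 2 → ℕ) (he : ∀ i, 1 < e i) (a : K) (ha : aeval a P ≠ 0) :
    (exampleVariation e (σ (aeval a P))).image ⊆ (exDeg P hP b hb e he).member σ a := by
  rintro x ⟨s, hE, hΔ, hU, rfl⟩
  change Fin 2 → ℂ at s
  obtain ⟨c, hc'⟩ : ∃ c, c = σ (aeval a P) := ⟨_, rfl⟩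
  have hc : c ≠ 0 := by rw [hc']; exact (map_ne_zero σ).2 ha
  rw [← hc'] at hE hΔ hU ⊢
  obtain ⟨t, ht⟩ : ∃ t, t = s 0 := ⟨_, rfl⟩
  obtain ⟨w, hw⟩ : ∃ w, w = s 1 := ⟨_, rfl⟩
  have hE' : MvPolynomial.eval s (MvPolynomial.X 0 * (MvPolynomial.X 0 - 2) *
      MvPolynomial.X 1 - 1 : MvPolynomial (Fin 2) ℂ) = 0 := hE ()
  have hΔ' : ∀ i : Fin 2, 4 * MvPolynomial.eval s (-3 * invariants e c i *
      (invariants e c i - 1728)) ^ 3 + 27 * MvPolynomial.eval s (-2 * invariants e c i *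
      (invariants e c i - 1728) ^ 2) ^ 2 ≠ 0 := hΔ
  have h1 : t * (t - 2) * w = 1 := by
    simp only [map_sub, map_mul, MvPolynomial.eval_X, map_ofNat, map_one, ← ht, ← hw] at hE'
    linear_combination hE'
  have ht0 : t ≠ 0 := by
    intro h
    rw [h] at h1
    simp at h1
  have ht2 : t - 2 ≠ 0 := by
    intro h
    rw [h] at h1
    simp at h1
  have hw1 : (t - 2) * w = 1 / t := by
    rw [eq_div_iff ht0]
    linear_combination h1
  have hw2 : t * w = 1 / (t - 2) := by
    rw [eq_div_iff ht2]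
    linear_combination h1
  have hJ : ∀ i : Fin 2, 6912 * MvPolynomial.eval s (-3 * invariants e c i *
      (invariants e c i - 1728)) ^ 3 / (4 * MvPolynomial.eval s (-3 * invariants e c i *
      (invariants e c i - 1728)) ^ 3 + 27 * MvPolynomial.eval s (-2 * invariants e c i *
      (invariants e c i - 1728) ^ 2) ^ 2) = MvPolynomial.eval s (invariants e c i) := by
    intro i
    have eA : MvPolynomial.eval s (-3 * invariants e c i * (invariants e c i - 1728)) =
        -3 * MvPolynomial.eval s (invariants e c i) *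
          (MvPolynomial.eval s (invariants e c i) - 1728) := by simp
    have eB : MvPolynomial.eval s (-2 * invariants e c i * (invariants e c i - 1728) ^ 2) =
        -2 * MvPolynomial.eval s (invariants e c i) *
          (MvPolynomial.eval s (invariants e c i) - 1728) ^ 2 := by simp
    have h := hΔ' i
    rw [eA, eB] at h ⊢
    exact j_formula _ h
  have hJ0 : MvPolynomial.eval s (invariants e c 0) = c⁻¹ ^ e 0 * (1 + e 0 * c * t) := by
    show MvPolynomial.eval s (MvPolynomial.C (c⁻¹ ^ e 0) *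
      (1 + MvPolynomial.C (e 0 * c) * MvPolynomial.X 0)) = _
    simp [ht]
  have hJ1 : MvPolynomial.eval s (invariants e c 1) = c⁻¹ ^ e 1 * (1 + e 1 * c * (1 / t)) := by
    have e1 : MvPolynomial.eval s (invariants e c 1) =
        c⁻¹ ^ e 1 * (1 + e 1 * c * ((s 0 - 2) * s 1)) := by
      show MvPolynomial.eval s (MvPolynomial.C (c⁻¹ ^ e 1) *
        (1 + MvPolynomial.C (e 1 * c) * ((MvPolynomial.X 0 - 2) * MvPolynomial.X 1))) = _
      simp
    rw [e1, ← ht, ← hw, hw1]
  have hU1 : MvPolynomial.eval s (MvPolynomial.C c * (1 + MvPolynomial.C c *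
        ((MvPolynomial.X 0 + 1) * (MvPolynomial.X 0 * MvPolynomial.X 1))) :
        MvPolynomial (Fin 2) ℂ) = c * (1 + c * ((t + 1) / (t - 2))) := by
    have e1 : MvPolynomial.eval s (MvPolynomial.C c * (1 + MvPolynomial.C c *
        ((MvPolynomial.X 0 + 1) * (MvPolynomial.X 0 * MvPolynomial.X 1))) :
        MvPolynomial (Fin 2) ℂ) = c * (1 + c * ((s 0 + 1) * (s 0 * s 1))) := by
      simp
    rw [e1, ← ht, ← hw, hw2]
    ring
  have hone : σ (((1 : 𝓞 K)) : K) = 1 := by simp
  refine ⟨fun _ => t, fun _ => 1, fun _ => Or.inr one_ne_zero, fun t => t.elim, ?_⟩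
  rintro (i | i)
  · fin_cases i
    · refine ⟨?_, ?_⟩
      · show (linForm (0 : (𝓞 K)[X]) 1).eval (spec σ a) (fun _ => t) (fun _ => 1) ≠ 0
        rw [linForm_eval]
        simp
      · show 6912 * MvPolynomial.eval s (-3 * invariants e c 0 *
            (invariants e c 0 - 1728)) ^ 3 / (4 * MvPolynomial.eval s (-3 * invariants e c 0 *
            (invariants e c 0 - 1728)) ^ 3 + 27 * MvPolynomial.eval s (-2 * invariants e c 0 *
            (invariants e c 0 - 1728) ^ 2) ^ 2) =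
          σ ((1 : 𝓞 K) : K) * σ (aeval a P) ^ (-(e 0 : ℤ)) * (1 + σ (aeval a P) ^ 1 *
          ((linForm (e 0 : (𝓞 K)[X]) 0).eval (spec σ a) (fun _ => t) (fun _ => 1) /
            (linForm (0 : (𝓞 K)[X]) 1).eval (spec σ a) (fun _ => t) (fun _ => 1)))
        rw [hJ 0, hJ0, linForm_eval, linForm_eval, ← hc', hone]
        simp only [map_natCast, map_one, map_zero, zpow_neg, zpow_natCast, inv_pow]
        ring
    · refine ⟨?_, ?_⟩
      · show (linForm (1 : (𝓞 K)[X]) 0).eval (spec σ a) (fun _ => t) (fun _ => 1) ≠ 0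
        rw [linForm_eval]
        simpa using ht0
      · show 6912 * MvPolynomial.eval s (-3 * invariants e c 1 *
            (invariants e c 1 - 1728)) ^ 3 / (4 * MvPolynomial.eval s (-3 * invariants e c 1 *
            (invariants e c 1 - 1728)) ^ 3 + 27 * MvPolynomial.eval s (-2 * invariants e c 1 *
            (invariants e c 1 - 1728) ^ 2) ^ 2) =
          σ ((1 : 𝓞 K) : K) * σ (aeval a P) ^ (-(e 1 : ℤ)) * (1 + σ (aeval a P) ^ 1 *
          ((linForm (0 : (𝓞 K)[X]) (e 1 : (𝓞 K)[X])).eval (spec σ a) (fun _ => t) (fun _ => 1) /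
            (linForm (1 : (𝓞 K)[X]) 0).eval (spec σ a) (fun _ => t) (fun _ => 1)))
        rw [hJ 1, hJ1, linForm_eval, linForm_eval, ← hc', hone]
        simp only [map_natCast, map_one, map_zero, zpow_neg, zpow_natCast, inv_pow]
        ring
  · have h0 : i = 0 := Subsingleton.elim _ _
    subst h0
    refine ⟨?_, ?_⟩
    · show (linForm (1 : (𝓞 K)[X]) (-2)).eval (spec σ a) (fun _ => t) (fun _ => 1) ≠ 0
      rw [linForm_eval]
      have e3 : (1 : ℂ) * t + -2 * 1 = t - 2 := by ring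
      simp only [map_one, map_neg, map_ofNat, e3]
      exact ht2
    · show MvPolynomial.eval s (MvPolynomial.C c * (1 + MvPolynomial.C c *
        ((MvPolynomial.X 0 + 1) * (MvPolynomial.X 0 * MvPolynomial.X 1))) :
        MvPolynomial (Fin 2) ℂ) =
        σ ((1 : 𝓞 K) : K) * σ (aeval a P) ^ (1 : ℤ) * (1 + σ (aeval a P) ^ 1 *
        ((linForm (1 : (𝓞 K)[X]) 1).eval (spec σ a) (fun _ => t) (fun _ => 1) /
          (linForm (1 : (𝓞 K)[X]) (-2)).eval (spec σ a) (fun _ => t) (fun _ => 1)))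
      rw [hU1, linForm_eval, linForm_eval, ← hc', hone]
      have e3 : (1 : ℂ) * t + -2 * 1 = t - 2 := by ring
      simp only [map_one, map_neg, map_ofNat, e3, zpow_one]
      ring

theorem ex_position (P : (𝓞 K)[X]) (hP : P ≠ 0) (b : 𝓞 K) (hb : P.eval b = 0)
    (e : Fin 2 → ℕ) (he : ∀ i, 1 < e i) : (exDeg P hP b hb e he).Position 1 := by
  classical
  intro κ _ _ ξ₀ ζ₀ η θ hgr W hW
  change Fin 1 → κ at ξ₀ ζ₀
  have hk : CharZero κ := charZero_of_injective_algebraMap (algebraMap K κ).injective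
  obtain ⟨hnz, hne, -, hgr⟩ := hgr
  set π : (𝓞 K)[X] →+* κ := ((algebraMap K κ).comp (algebraMap (𝓞 K) K)).comp (evalRingHom b)
    with hπ
  obtain ⟨ξ, hξ⟩ : ∃ ξ, ξ = ξ₀ 0 := ⟨_, rfl⟩
  obtain ⟨ζ, hζ⟩ : ∃ ζ, ζ = ζ₀ 0 := ⟨_, rfl⟩
  have hnz0 : ξ ≠ 0 ∨ ζ ≠ 0 := by rw [hξ, hζ]; exact hnz (0 : Fin 1)
  have g0 : η (Sum.inl 0) * ζ = θ (Sum.inl 0) * (e 0 * ξ) := by
    have h := hgr (Sum.inl 0)
    change η (Sum.inl 0) * (linForm (0 : (𝓞 K)[X]) 1).eval π ξ₀ ζ₀ =
      θ (Sum.inl 0) * (linForm (e 0 : (𝓞 K)[X]) 0).eval π ξ₀ ζ₀ at h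
    rw [linForm_eval, linForm_eval, ← hξ, ← hζ] at h
    simpa using h
  have g1 : η (Sum.inl 1) * ξ = θ (Sum.inl 1) * (e 1 * ζ) := by
    have h := hgr (Sum.inl 1)
    change η (Sum.inl 1) * (linForm (1 : (𝓞 K)[X]) 0).eval π ξ₀ ζ₀ =
      θ (Sum.inl 1) * (linForm (0 : (𝓞 K)[X]) (e 1 : (𝓞 K)[X])).eval π ξ₀ ζ₀ at h
    rw [linForm_eval, linForm_eval, ← hξ, ← hζ] at h
    simpa using h
  have g2 : η (Sum.inr 0) * (ξ - 2 * ζ) = θ (Sum.inr 0) * (ξ + ζ) := by
    have h := hgr (Sum.inr 0)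
    change η (Sum.inr 0) * (linForm (1 : (𝓞 K)[X]) (-2)).eval π ξ₀ ζ₀ =
      θ (Sum.inr 0) * (linForm (1 : (𝓞 K)[X]) 1).eval π ξ₀ ζ₀ at h
    rw [linForm_eval, linForm_eval, ← hξ, ← hζ] at h
    simp only [map_one, map_neg, map_ofNat] at h
    linear_combination h
  have he0 : ∀ i, (e i : κ) ≠ 0 := fun i => by
    have := he i
    exact_mod_cast (show e i ≠ 0 by omega)
  -- finite coordinates
  have t0 : ζ ≠ 0 → θ (Sum.inl 0) ≠ 0 ∧ η (Sum.inl 0) / θ (Sum.inl 0) / e 0 = ξ / ζ := by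
    intro h
    have h1 : θ (Sum.inl 0) ≠ 0 := by
      intro h1
      rw [h1, zero_mul] at g0
      rcases hne (Sum.inl 0) with h2 | h2
      · exact (mul_ne_zero h2 h) g0
      · exact h2 h1
    refine ⟨h1, ?_⟩
    have h2 := he0 0
    rw [div_div, div_eq_div_iff (mul_ne_zero h1 h2) h]
    linear_combination g0
  have t1 : ξ ≠ 0 → θ (Sum.inl 1) ≠ 0 ∧ η (Sum.inl 1) / θ (Sum.inl 1) / e 1 = ζ / ξ := by
    intro h
    have h1 : θ (Sum.inl 1) ≠ 0 := by
      intro h1
      rw [h1, zero_mul] at g1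
      rcases hne (Sum.inl 1) with h2 | h2
      · exact (mul_ne_zero h2 h) g1
      · exact h2 h1
    refine ⟨h1, ?_⟩
    have h2 := he0 1
    rw [div_div, div_eq_div_iff (mul_ne_zero h1 h2) h]
    linear_combination g1
  have t2 : ξ - 2 * ζ ≠ 0 → θ (Sum.inr 0) ≠ 0 ∧
      η (Sum.inr 0) / θ (Sum.inr 0) = (ξ + ζ) / (ξ - 2 * ζ) := by
    intro h
    have h1 : θ (Sum.inr 0) ≠ 0 := by
      intro h1
      rw [h1, zero_mul] at g2
      rcases hne (Sum.inr 0) with h2 | h2
      · exact (mul_ne_zero h2 h) g2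
      · exact h2 h1
    refine ⟨h1, ?_⟩
    rw [div_eq_div_iff h1 h]
    linear_combination g2
  have c01 : ζ ≠ 0 → ξ ≠ 0 → ξ ^ 2 ≠ ζ ^ 2 →
      η (Sum.inl 0) / θ (Sum.inl 0) / e 0 ≠ η (Sum.inl 1) / θ (Sum.inl 1) / e 1 := by
    intro h1 h2 h3 h4
    rw [(t0 h1).2, (t1 h2).2, div_eq_div_iff h1 h2] at h4
    exact h3 (by linear_combination h4)
  have hthree : (3 : κ) ≠ 0 := three_ne_zero
  have htwo : (2 : κ) ≠ 0 := two_ne_zero
  -- one elliptic coordinate and the Kummer coordinate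
  have one : ∀ i : Fin 2, θ (Sum.inl i) ≠ 0 → θ (Sum.inr 0) ≠ 0 →
      ∃ (S : Finset (Fin 2)) (J : Finset (Fin 1)),
        (∀ i ∈ S, θ (Sum.inl i) ≠ 0) ∧
        (∀ i ∈ S, ∀ j ∈ S, i ≠ j →
          η (Sum.inl i) / θ (Sum.inl i) / e i ≠ η (Sum.inl j) / θ (Sum.inl j) / e j) ∧
        (∀ j ∈ J, θ (Sum.inr j) ≠ 0 ∧ ((1 : ℤ) ≠ 0 ∨ η (Sum.inr j) ≠ 0)) ∧
        (∀ i ∈ J, ∀ j ∈ J, i ≠ j →
          ((1 : ℤ) : κ) * (η (Sum.inr i) / θ (Sum.inr i)) ≠
            ((1 : ℤ) : κ) * (η (Sum.inr j) / θ (Sum.inr j))) ∧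
        J.card ≤ 2 ∧ 2 + 1 + 0 ≤ 1 + S.card + J.card := by
    intro i h1 h2
    refine ⟨{i}, {0}, ?_, ?_, ?_, ?_, ?_, ?_⟩
    · intro l hl
      rw [Finset.mem_singleton.1 hl]
      exact h1
    · intro l hl l' hl' h
      exact absurd ((Finset.mem_singleton.1 hl).trans (Finset.mem_singleton.1 hl').symm) h
    · intro l _
      have h0 : l = 0 := Subsingleton.elim _ _
      rw [h0]
      exact ⟨h2, Or.inl one_ne_zero⟩
    · intro l _ l' _ h
      exact absurd (Subsingleton.elim l l') h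
    · simp
    · simp
  have two : θ (Sum.inl 0) ≠ 0 → θ (Sum.inl 1) ≠ 0 →
      η (Sum.inl 0) / θ (Sum.inl 0) / e 0 ≠ η (Sum.inl 1) / θ (Sum.inl 1) / e 1 →
      ∀ (N₀ : ℕ) (J₀ : Finset (Fin 1)), (∀ j ∈ J₀, θ (Sum.inr j) ≠ 0) → N₀ ≤ J₀.card →
      ∃ (S : Finset (Fin 2)) (J : Finset (Fin 1)),
        (∀ i ∈ S, θ (Sum.inl i) ≠ 0) ∧
        (∀ i ∈ S, ∀ j ∈ S, i ≠ j →
          η (Sum.inl i) / θ (Sum.inl i) / e i ≠ η (Sum.inl j) / θ (Sum.inl j) / e j) ∧
        (∀ j ∈ J, θ (Sum.inr j) ≠ 0 ∧ ((1 : ℤ) ≠ 0 ∨ η (Sum.inr j) ≠ 0)) ∧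
        (∀ i ∈ J, ∀ j ∈ J, i ≠ j →
          ((1 : ℤ) : κ) * (η (Sum.inr i) / θ (Sum.inr i)) ≠
            ((1 : ℤ) : κ) * (η (Sum.inr j) / θ (Sum.inr j))) ∧
        J.card ≤ 2 ∧ 2 + 1 + N₀ ≤ 1 + S.card + J.card := by
    intro h1 h2 h3 N₀ J hJ hN₀
    refine ⟨Finset.univ, J, ?_, ?_, ?_, ?_, ?_, ?_⟩
    · intro l _
      fin_cases l
      · exact h1
      · exact h2
    · intro l _ l' _ h
      fin_cases l <;> fin_cases l'
      · exact absurd rfl h
      · exact h3
      · exact h3.symm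
      · exact absurd rfl h
    · intro l hl
      exact ⟨hJ l hl, Or.inl one_ne_zero⟩
    · intro l _ l' _ h
      exact absurd (Subsingleton.elim l l') h
    · have := Finset.card_le_univ J
      simp at this
      omega
    · rw [Finset.card_univ, Fintype.card_fin]
      omega
  have hcard := Pool.Agent.U854.CL.line_card (F := K) W (fun i => η i / θ i) (ξ / ζ)
    (fun i _ => by
      set A := Algebra.adjoin K {ξ / ζ} with hA
      have htA : ξ / ζ ∈ A := Algebra.subset_adjoin rfl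
      have hnat : ∀ N : ℕ, (N : κ) ∈ A := fun N => natCast_mem A N
      rcases i with i | i
      · fin_cases i
        · by_cases h : ζ = 0
          · refine ⟨0, A.zero_mem, 1, A.one_mem, ?_⟩
            have hξ0 := hnz0.resolve_right (fun h' => h' h)
            have h1 : θ (Sum.inl 0) = 0 := by
              rw [h, mul_zero] at g0
              exact (mul_eq_zero.1 g0.symm).resolve_right (mul_ne_zero (he0 0) hξ0)
            show η (Sum.inl 0) / θ (Sum.inl 0) = 0 / 1
            rw [h1, div_zero, zero_div]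
          · refine ⟨e 0 * (ξ / ζ), A.mul_mem (hnat _) htA, 1, A.one_mem, ?_⟩
            have h1 := (t0 h).2
            rw [div_eq_iff (he0 0)] at h1
            show η (Sum.inl 0) / θ (Sum.inl 0) = _
            rw [h1, div_one, mul_comm]
        · by_cases h : ξ = 0
          · refine ⟨0, A.zero_mem, 1, A.one_mem, ?_⟩
            have hζ0 := hnz0.resolve_left (fun h' => h' h)
            have h1 : θ (Sum.inl 1) = 0 := by
              rw [h, mul_zero] at g1
              exact (mul_eq_zero.1 g1.symm).resolve_right (mul_ne_zero (he0 1) hζ0)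
            show η (Sum.inl 1) / θ (Sum.inl 1) = 0 / 1
            rw [h1, div_zero, zero_div]
          · refine ⟨e 1, hnat _, ξ / ζ, htA, ?_⟩
            have h1 := (t1 h).2
            rw [div_eq_iff (he0 1)] at h1
            show η (Sum.inl 1) / θ (Sum.inl 1) = _
            rw [h1, div_div_eq_mul_div]
            ring
      · have hi0 : i = 0 := Subsingleton.elim _ _
        subst hi0
        by_cases h : ζ = 0
        · refine ⟨1, A.one_mem, 1, A.one_mem, ?_⟩
          have hξ0 := hnz0.resolve_right (fun h' => h' h)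
          have h1 : ξ - 2 * ζ ≠ 0 := by rw [h, mul_zero, sub_zero]; exact hξ0
          have h2 := (t2 h1).2
          rw [h, mul_zero, sub_zero, add_zero, div_self hξ0] at h2
          show η (Sum.inr 0) / θ (Sum.inr 0) = _
          rw [h2, div_one]
        · by_cases h1 : ξ - 2 * ζ = 0
          · refine ⟨0, A.zero_mem, 1, A.one_mem, ?_⟩
            have h2 : θ (Sum.inr 0) = 0 := by
              rw [h1, mul_zero] at g2
              refine (mul_eq_zero.1 g2.symm).resolve_right ?_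
              have h3 : ξ + ζ = 3 * ζ := by linear_combination h1
              rw [h3]
              exact mul_ne_zero hthree h
            show η (Sum.inr 0) / θ (Sum.inr 0) = 0 / 1
            rw [h2, div_zero, zero_div]
          · refine ⟨ξ / ζ + 1, A.add_mem htA A.one_mem,
              ξ / ζ - 2, A.sub_mem htA (by exact_mod_cast hnat 2), ?_⟩
            have h2 := (t2 h1).2
            show η (Sum.inr 0) / θ (Sum.inr 0) = _
            have e5 : ξ / ζ + 1 = (ξ + ζ) / ζ := by field_simp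
            have e6 : ξ / ζ - 2 = (ξ - 2 * ζ) / ζ := by field_simp
            rw [h2, e5, e6, div_div_div_cancel_right₀ h]) hW
  obtain ⟨hc1, hc2⟩ := hcard
  by_cases hW0 : W.card = 0
  · rw [hW0]
    by_cases hζ0 : ζ = 0
    · have hξ0 := hnz0.resolve_right (fun h' => h' hζ0)
      have h1 : ξ - 2 * ζ ≠ 0 := by rw [hζ0, mul_zero, sub_zero]; exact hξ0
      exact one 1 (t1 hξ0).1 (t2 h1).1
    · by_cases h1 : ξ - 2 * ζ = 0
      · have hξ0 : ξ ≠ 0 := by
          intro h
          rw [h, zero_sub] at h1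
          exact (mul_ne_zero htwo hζ0) (neg_eq_zero.1 h1)
        have hsq : ξ ^ 2 ≠ ζ ^ 2 := by
          intro h
          have h4 : ξ = 2 * ζ := by linear_combination h1
          rw [h4] at h
          have h5 : 3 * ζ ^ 2 = 0 := by linear_combination h
          exact (mul_ne_zero hthree (pow_ne_zero _ hζ0)) h5
        exact two (t0 hζ0).1 (t1 hξ0).1 (c01 hζ0 hξ0 hsq) 0 ∅
          (fun j hj => absurd hj (Finset.notMem_empty j)) (Nat.zero_le _)
      · exact one 0 (t0 hζ0).1 (t2 h1).1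
  · have hW1 : W.card = 1 := by omega
    have htr : Transcendental K (ξ / ζ) := fun h => hW0 (hc2 h)
    have key : ∀ Q : K[X], Q ≠ 0 → aeval (ξ / ζ) Q ≠ 0 := fun Q hQ h =>
      hQ ((transcendental_iff.1 htr) Q h)
    have hζ0 : ζ ≠ 0 := by
      intro h
      apply htr
      rw [h, div_zero]
      exact isAlgebraic_zero
    have hξ0 : ξ ≠ 0 := by
      intro h
      apply htr
      rw [h, zero_div]
      exact isAlgebraic_zero
    have h1 : ξ - 2 * ζ ≠ 0 := by
      intro h
      refine key (X - C 2) (X_sub_C_ne_zero 2) ?_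
      rw [map_sub, aeval_X, aeval_C, map_ofNat, sub_eq_zero, div_eq_iff hζ0]
      linear_combination h
    have h2 : ξ ^ 2 ≠ ζ ^ 2 := by
      intro h
      refine key (X ^ 2 - C 1) (X_pow_sub_C_ne_zero two_pos 1) ?_
      rw [map_sub, map_pow, aeval_X, aeval_C, map_one, div_pow, h,
        div_self (pow_ne_zero _ hζ0), sub_self]
    rw [hW1]
    exact two (t0 hζ0).1 (t1 hξ0).1 (c01 hζ0 hξ0 h2) 1 Finset.univ (fun j _ => by
      have h0 : j = 0 := Subsingleton.elim _ _
      rw [h0]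
      exact (t2 h1).1) (by rw [Finset.card_univ, Fintype.card_fin])

/-- **Degenerating families of variations of mixed Hodge structure** -/
theorem result {K : Type} [Field K] [NumberField K] (σ : K →+* ℂ) :
    (∀ (n k m : ℕ) (D : Degeneration K n k), D.Position m →
      ∃ S : Set (HeightOneSpectrum (𝓞 K)), S.Finite ∧ ∀ a : K, aeval a D.P ≠ 0 →
        (∃ v ∉ S, v.valuation K (a - D.b) < 1) →
        ∀ V : Variation n k, V.image ⊆ D.member σ a → NoAtypicalHodge V.image m) ∧
    (∀ (n k m : ℕ) (X : K → Set (Fin n ⊕ Fin k → ℂ)) (D : Fin 3 → Degeneration K n k),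
      (∀ l, (D l).Position m) → (Function.Injective fun l => (D l).b) →
      (∀ l a, aeval a (D l).P ≠ 0 → X a ⊆ (D l).member σ a) →
      {a : K | ∃ V : Variation n k, V.image ⊆ X a ∧ ¬ NoAtypicalHodge V.image m}.Finite) ∧
    (∀ (n k m : ℕ) (X : K → Set (Fin n ⊕ Fin k → ℂ)) (D : Fin 2 → Degeneration K n k),
      (∀ l, (D l).Position m) → (Function.Injective fun l => (D l).b) →
      (∀ l a, aeval a (D l).P ≠ 0 → X a ⊆ (D l).member σ a) →
      ∀ S₀ : Set (HeightOneSpectrum (𝓞 K)), S₀.Finite →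
      {a : K | (∀ v ∉ S₀, v.valuation K a ≤ 1) ∧
        ∃ V : Variation n k, V.image ⊆ X a ∧ ¬ NoAtypicalHodge V.image m}.Finite) ∧
    (∀ (P : (𝓞 K)[X]) (b : Fin 3 → 𝓞 K) (e : Fin 2 → ℕ), P ≠ 0 → Function.Injective b →
      (∀ l, P.eval (b l) = 0) → (∀ i, 1 < e i) →
      {a : K | ¬ NoAtypicalHodge (exampleVariation e (σ (aeval a P))).image 1}.Finite) := by
  refine ⟨fun n k m D hD => ?_, fun n k m X D hD hb hX => ?_,
    fun n k m X D hD hb hX S₀ hS₀ => ?_, fun P b e hP hb hroot he => ?_⟩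
  · obtain ⟨S, hS, h⟩ := one_cusp σ D hD
    exact ⟨S, hS, fun a ha hv V hV => (h a ha hv).mono hV⟩
  · refine (three_cusps σ X D hD hb hX).subset ?_
    rintro a ⟨V, hV, hVn⟩ h
    exact hVn (h.mono hV)
  · refine (two_cusps σ X D hD hb hX S₀ hS₀).subset ?_
    rintro a ⟨h0, V, hV, hVn⟩
    exact ⟨h0, fun h => hVn (h.mono hV)⟩
  · exact three_cusps σ (fun a => (exampleVariation e (σ (aeval a P))).image)
      (fun l => exDeg P hP (b l) (hroot l) e he)
      (fun l => ex_position P hP (b l) (hroot l) e he) hb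
      (fun l a ha => ex_member σ P hP (b l) (hroot l) e he a ha)

end Pool.Agent.Results.MP_eeb1a4_ag.DegeneratingVariations
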