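import Pool.Agent.U552.UD.FairOrd
import Pool.Agent.Results.MP_eeb1a4_ag.RandomOrbits

/-!
# MP_eeb1a4_ag: Zilber-Pink for mixed variations of Hodge structure along all fair sequences of parameters: real
# polynomials, arbitrary functions of given orders

**The variations.** Let `P` be a system of polynomials in `y_1, …, y_N`, and let `A_i`, `B_i` (`i ≤ n`)
and `U_j` (`j ≤ k`) be polynomials in `y_1, …, y_N`, all with coefficients in `ℤ[t_1, …, t_r]`. For
`t ∈ ℤ^r` let `S_t ⊂ ℂ^N` be the set of the points `y` with `P(y) = 0`, `4 A_i(y)³ + 27 B_i(y)² ≠ 0`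
for all `i` and `U_j(y) ≠ 0` for all `j`. Over `S_t` there are the elliptic curves
`E_i : Y² = X³ + A_i X + B_i` and the invertible functions `U_j`, which give extensions of `ℤ` by `ℤ(1)`
(Kummer variations); the sum `V_t` of the variations `R¹π_{i*} ℤ` and of these extensions is an admissible
graded-polarizable variation of mixed Hodge structure (on the smooth part of `S_t`). Its period map to
`Y(1)^n × G_m^k` is given by the `j`-invariants and the functions `U_j`. These data with the tropical
condition of the starting result `RandomOrbits` are a `Family`, and `Family.Typical Γ K t` says that for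
all Hodge subvarieties `Z × C` (`Z` special in `Y(1)^n`, `C` a torsion coset; more generally with
constants integral over `ℤ[Γ]`, `Γ` a finite set of algebraic numbers) every irreducible constructible
subset `W` of the intersection with the image of `S_t` satisfies `dim W + (n + k - m) ≤ dim (Z × C)`.

**Theorem.** (1) Let the sequence `c_{n,0}, c_{n,1}, …`, `n = 0, 1, …`, of infinite integral vectors be `Fair`: for every finite set of
indices with `s` elements the proportion of the `n < N` with given residues of the `c_{n,l}` modulo `q` is at most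
`C q ^ (-s) + o(1)`, where `C` depends on the set of indices only. There is ONE set `E` of natural numbers of density zero, depending on the sequence only, such
that for ALL `r`, all vectors `σ` of `r` different indices, ALL families over `ℤ[t_1, …, t_r]` with the condition (all `n`,
`k`, `N`, `m`, all bases, elliptic curves and functions) and all `Γ` the member `V_t` at `t = (c_{j,σ(1)}, …, c_{j,σ(r)})` has no
atypical Hodge subvarieties in the above sense, for all but finitely many `j` outside `E`.

(2) `c_{n,l} = ⌊x_l(n)⌋` is fair if the exponential means of all nontrivial rational combinations of the real sequences `x_l`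
tend to zero (`UniformlyDistributed`).

(3) This is so for the values `x_l(n) = P_l(n)` of real polynomials if no nontrivial integral combination of finitely many of
them has only rational coefficients in positive degrees, for example for `x_l(n) = α_l n`, where `1, α_0, α_1, …` are
linearly independent over the rational numbers.

(4) `c_{n,l} = ⌊f_l(n)⌋` is fair for ARBITRARY functions of different orders `γ_l > 0`: for some `d > γ_l` (common for any
finitely many of them) the differences of order `d` of `f_l` have a constant sign and are `n ^ (γ_l - d + o(1))` in absolute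
value. There is no smoothness and no formula; examples are `n ^ γ` with `γ` not an integer, `n ^ j log n`, all functions of
a Hardy field with the same growth, plus arbitrary real polynomials of degree below `d`, and irregular functions.

The starting results have ALMOST ALL words in generators of a thin group (`RandomOrbits`), almost all real vectors
(`MetricSequences`), and sequences which are exactly uniformly distributed modulo all `q` (`OneNullSet`, another condition on
the families).

Proof. The exceptional parameters of a family are in a finite union of sets `Bd (f_l) (G_l) D` (`t` such that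
`f_l(t)` is zero or has no prime divisor above `D` which does not divide `G_l(t)`), and these are pronull sets
(`Pool.Agent.N618.RO`, helper618). Fair sequences visit a pronull set only at times of density zero. There are countably
many `(r, σ, f, G, D)`, and a diagonal argument gives one set of times. (2) uses products of Fejer kernels
(`Pool.Agent.U552.UD`), (3) is Weyl's theorem (starting library), (4) is a derivative test of order `d` for functions
without smoothness (helper828, `Pool.Agent.U828.KD.order_well`).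
-/

set_option autoImplicit false

namespace Pool.Agent.Results.MP_eeb1a4_ag.FairSequences

open Filter Topology
open Pool.Agent.N603.TH (Divergent)
open Pool.Agent.N618.RO (Bd bd_null countable_mv)
open Pool.Agent.Results.MP_eeb1a4_ag.RandomOrbits (Family exceptional rich_iff)

/-- `S` has density zero. -/
def Null (S : Set ℕ) : Prop :=
  Tendsto (fun N : ℕ => (({n : ℕ | n < N ∧ n ∈ S}.ncard : ℕ) : ℝ) / (N : ℝ)) atTop (𝓝 0)

/-- For every finite set of indices, with `s` elements, the proportion of the `n < N` with given residues of the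
`c n l` modulo `q` is at most `C q ^ (-s) + o(1)`, where `C` depends on the set only. -/
def Fair (c : ℕ → ℕ → ℤ) : Prop :=
  ∀ s : Finset ℕ, ∃ C : ℝ, ∀ q : ℕ, 0 < q → ∀ (a : ℕ → ℤ) (δ : ℝ), 0 < δ → ∃ N₀ : ℕ, ∀ N : ℕ, N₀ ≤ N →
    (({n : ℕ | n < N ∧ ∀ l ∈ s, (q : ℤ) ∣ c n l - a l}.ncard : ℕ) : ℝ) ≤ (C / (q : ℝ) ^ s.card + δ) * N

/-- The exponential means of all nontrivial rational combinations of the sequences `x 0, x 1, …` tend to zero. -/
def UniformlyDistributed (x : ℕ → ℕ → ℝ) : Prop :=
  ∀ (s : Finset ℕ) (h : ℕ → ℚ), (∃ l ∈ s, h l ≠ 0) →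
    Tendsto (fun N : ℕ => (∑ n ∈ Finset.range N,
      Complex.exp (2 * Real.pi * ((∑ l ∈ s, (h l : ℝ) * x l n : ℝ) : ℂ) * Complex.I)) / (N : ℂ)) atTop (𝓝 0)

/-- No nontrivial integral combination of finitely many of the polynomials has only rational coefficients in positive
degrees. -/
def Independent (P : ℕ → Polynomial ℝ) : Prop :=
  ∀ (s : Finset ℕ) (h : ℕ → ℤ), (∃ l ∈ s, h l ≠ 0) →
    ∃ j : ℕ, 1 ≤ j ∧ Irrational (∑ l ∈ s, (h l : ℝ) * (P l).coeff j)

/-- The differences of order `d` of `f` have a constant sign and are `n ^ (c - d + o(1))` in absolute value. -/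
def Order (d : ℕ) (c : ℝ) (f : ℕ → ℝ) : Prop :=
  ∀ ε : ℝ, 0 < ε → ∃ T : ℕ,
    (∀ n : ℕ, T ≤ n → (n : ℝ) ^ (c - d - ε) ≤ (fwdDiff 1)^[d] f n ∧
      (fwdDiff 1)^[d] f n ≤ (n : ℝ) ^ (c - d + ε)) ∨
    (∀ n : ℕ, T ≤ n → (n : ℝ) ^ (c - d - ε) ≤ -(fwdDiff 1)^[d] f n ∧
      -(fwdDiff 1)^[d] f n ≤ (n : ℝ) ^ (c - d + ε))

/-- For every `k` the functions `f_0, …, f_k` have the orders `γ_0, …, γ_k`, with a common order of differences. -/
def Orders (γ : ℕ → ℝ) (f : ℕ → ℕ → ℝ) : Prop :=
  ∀ k : ℕ, ∃ d : ℕ, 2 ≤ d ∧ ∀ l ≤ k, γ l < d ∧ Order d (γ l) (f l)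

theorem fair_main (c : ℕ → ℕ → ℤ) (hc : Fair c) : ∃ E : Set ℕ, Null E ∧
    ∀ (r : ℕ) (σ : Fin r → ℕ), Function.Injective σ →
      ∀ (𝓕 : Family r) (Γ : Finset ℂ) (K : Subfield ℂ) [Countable K],
        (∀ γ ∈ Γ, IsAlgebraic ℚ γ) → (∀ γ ∈ Γ, γ ∈ K) →
          {j : ℕ | j ∉ E ∧ ¬ 𝓕.Typical Γ K (fun i => c j (σ i))}.Finite := by
  classical
  have hcm := fun r : ℕ => countable_mv r
  obtain ⟨E, hE, hE2⟩ := Pool.Agent.U552.UD.diag_family
    (K := Σ r : ℕ, {x : MvPolynomial (Fin r) ℤ × MvPolynomial (Fin r) ℤ × ℕ // x.1 ≠ 0 ∧ Divergent x.1 x.2.1})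
    (fun x => Fin x.1)
    (fun x v => v ∈ Bd x.2.1.1 x.2.1.2.1 x.2.1.2.2)
    (fun x => bd_null Pool.Agent.N24.RW.crit Pool.Agent.N24.RW.clo x.2.2.1 x.2.2.2 _) c
    (fun x σ hσ => Pool.Agent.U552.UD.Fair.avoids hc _ σ hσ)
  refine ⟨E, hE, fun r σ hσ 𝓕 Γ K _ hΓ hΓK => ?_⟩
  obtain ⟨D, hD⟩ := exceptional 𝓕 Γ K hΓ hΓK
  refine (Set.finite_iUnion fun l : Fin 𝓕.M =>
    hE2 ⟨r, (𝓕.f l, 𝓕.G l, D), rich_iff (𝓕.rich l)⟩ σ hσ).subset ?_
  rintro j ⟨hj, hj2⟩
  obtain ⟨l, hl⟩ := Set.mem_iUnion.1 (hD (show (fun i => c j (σ i)) ∈ {t | ¬ 𝓕.Typical Γ K t} from hj2))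
  exact Set.mem_iUnion.2 ⟨l, hj, hl⟩

/-- **Zilber-Pink for mixed variations of Hodge structure along fair sequences.** -/
theorem result :
    (∀ c : ℕ → ℕ → ℤ, Fair c → ∃ E : Set ℕ, Null E ∧ ∀ (r : ℕ) (σ : Fin r → ℕ), Function.Injective σ →
      ∀ (𝓕 : Family r) (Γ : Finset ℂ) (K : Subfield ℂ) [Countable K],
        (∀ γ ∈ Γ, IsAlgebraic ℚ γ) → (∀ γ ∈ Γ, γ ∈ K) →
          {j : ℕ | j ∉ E ∧ ¬ 𝓕.Typical Γ K (fun i => c j (σ i))}.Finite) ∧
    (∀ x : ℕ → ℕ → ℝ, UniformlyDistributed x → Fair (fun n l => ⌊x l n⌋)) ∧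
    (∀ P : ℕ → Polynomial ℝ, Independent P → UniformlyDistributed (fun l n => (P l).eval (n : ℝ))) ∧
    ∀ (γ : ℕ → ℝ) (f : ℕ → ℕ → ℝ), (∀ l, 0 < γ l) → Function.Injective γ → Orders γ f →
      Fair (fun n l => ⌊f l n⌋) :=
  ⟨fun c hc => fair_main c hc,
    fun _ hx => Pool.Agent.U552.UD.fair_of_weyl hx,
    fun _ hP => Pool.Agent.U552.UD.weylFamily_of_poly hP,
    fun _ _ h0 hinj hf => Pool.Agent.U552.UD.fair_of_orders h0 hinj hf⟩

end Pool.Agent.Results.MP_eeb1a4_ag.FairSequences
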