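import Pool.Agent.Results.MP_eeb1a4_ag.RandomOrbits
import Pool.Agent.U125.NO.Seq

/-!
# MP_eeb1a4_ag: Zilber-Pink for mixed variations of Hodge structure along normal orbits of parameters

**The variations.** Let `P` be a system of polynomials in `y_1, …, y_N`, and let `A_i`, `B_i` (`i ≤ n`)
and `U_j` (`j ≤ k`) be polynomials in `y_1, …, y_N`, all with coefficients in `ℤ[t_1, …, t_r]`. For
`t ∈ ℤ^r` let `S_t ⊂ ℂ^N` be the set of the points `y` with `P(y) = 0`, `4 A_i(y)³ + 27 B_i(y)² ≠ 0`
for all `i` and `U_j(y) ≠ 0` for all `j`. Over `S_t` there are the elliptic curves
`E_i : Y² = X³ + A_i X + B_i` and the invertible functions `U_j`, which give extensions of `ℤ` by `ℤ(1)`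
(Kummer variations); the sum `V_t` of the variations `R¹π_{i*} ℤ` and of these extensions is an admissible
graded-polarizable variation of mixed Hodge structure (on the smooth part of `S_t`). Its period map to
`Y(1)^n × G_m^k` is given by the `j`-invariants and the functions `U_j`. These data with the tropical
condition of the starting result `RandomOrbits` are a `Family`, and `Family.Typical Γ K t` says that for
all Hodge subvarieties `Z × C` (`Z` special in `Y(1)^n`, `C` a torsion coset; more generally with
constants integral over `ℤ[Γ]`, `Γ` a finite set of algebraic numbers) every irreducible constructible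
subset `W` of the intersection with the image of `S_t` satisfies `dim W + (n + k - m) ≤ dim (Z × C)`.

**Theorem.** Let `c_0, c_1, …` be ANY normal orbit of vectors in `ℤ^r` (`NormalOrbit`). There is ONE set `E` of
times of natural density zero such that for ALL families with the condition (all `n`, `k`, `N`, `m`, all bases,
elliptic curves and functions) and all `Γ` the member `V_t` at `t = c_j` has no atypical Hodge subvarieties
in the above sense, for all but finitely many `j` outside `E`.

A normal orbit is the orbit of an integral vector under a finite family of integral affine maps along ANY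
normal sequence of indices, where the family is wide: for all `q` prime to some `q₀` the maps are bijective
modulo `q`, and the vector can be moved to at least the proportion `κ > 0`, not depending on `q`, of all
vectors modulo `q`. The starting results have ALMOST ALL words in generators of a thin group
(`RandomOrbits`) and almost all real vectors (`MetricSequences`), with sets of exceptional times which depend
on the family.

Examples: (1) the vectors `(⌊b ^ j x_i⌋)_i` for ANY vector `x` of real numbers which is normal to the base
`b ≥ 2`: the parameters are read off from the expansions of the numbers `x_i`, one variation for every digit;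
(2) the orbit of any vector `v ≠ 0` along ANY normal word in matrices which generate the special linear group
modulo all `q` prime to some `q₀` (generators of a thin group); (3) vectors of integers whose digits are
chosen from a restricted set of vectors.

Proof. The exceptional parameters of a family are in a finite union of sets `Bd (f_l) (G_l) D` (`t` such that
`f_l(t)` is zero or has no prime divisor above `D` which does not divide `G_l(t)`), and these are pronull sets
(`Pool.Agent.N618.RO`, helper618). Normal orbits visit a pronull set only at times of density zero: modulo `q`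
they are orbits along a normal sequence in a finite transitive system of permutations, and these are
equidistributed (engine `Pool.Agent.U125.NO`). There are countably many `(f, G, D)`, and a diagonal argument
gives one set of times.
-/

set_option autoImplicit false

namespace Pool.Agent.Results.MP_eeb1a4_ag.NormalSequences

open Filter Topology
open Pool.Agent.U125.NO (NormalOrbit Nul Examples examples)
open Pool.Agent.N603.TH (Divergent)
open Pool.Agent.N618.RO (Bd bd_null countable_mv)
open Pool.Agent.Results.MP_eeb1a4_ag.RandomOrbits (Family exceptional rich_iff)

/-- **Zilber-Pink for mixed variations of Hodge structure along normal orbits.** `Nul E`: the set `E` of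
natural numbers has natural density zero. -/
theorem result (r : ℕ) :
    (∀ c : ℕ → Fin r → ℤ, NormalOrbit c → ∃ E : Set ℕ, Nul E ∧
      ∀ (𝓕 : Family r) (Γ : Finset ℂ) (K : Subfield ℂ) [Countable K],
        (∀ γ ∈ Γ, IsAlgebraic ℚ γ) → (∀ γ ∈ Γ, γ ∈ K) →
          {j : ℕ | j ∉ E ∧ ¬ 𝓕.Typical Γ K (c j)}.Finite) ∧
    Examples (Fin r) := by
  refine ⟨fun c hc => ?_, examples _⟩
  have := countable_mv r
  obtain ⟨E, hE, hE2⟩ := hc.avoids.diag
    (K := {x : MvPolynomial (Fin r) ℤ × MvPolynomial (Fin r) ℤ × ℕ // x.1 ≠ 0 ∧ Divergent x.1 x.2.1})
    (fun x v => v ∈ Bd x.1.1 x.1.2.1 x.1.2.2)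
    (fun x => bd_null Pool.Agent.N24.RW.crit Pool.Agent.N24.RW.clo x.2.1 x.2.2 _)
  refine ⟨E, hE, fun 𝓕 Γ K _ hΓ hΓK => ?_⟩
  obtain ⟨D, hD⟩ := exceptional 𝓕 Γ K hΓ hΓK
  refine (Set.finite_iUnion fun l : Fin 𝓕.M =>
    hE2 ⟨(𝓕.f l, 𝓕.G l, D), rich_iff (𝓕.rich l)⟩).subset ?_
  rintro j ⟨hj, hj2⟩
  obtain ⟨l, hl⟩ := Set.mem_iUnion.1 (hD (show c j ∈ {t | ¬ 𝓕.Typical Γ K t} from hj2))
  exact Set.mem_iUnion.2 ⟨l, hj, hl⟩

end Pool.Agent.Results.MP_eeb1a4_ag.NormalSequences
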