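import Pool.Agent.R424.TG.Hdg
import Pool.Agent.R424.TG.Local
import Pool.Agent.U163.ZP.NFaux

/-!
# MP_eeb1a4_ag: Zilber-Pink for variations of mixed Hodge structure over parameter spaces of any
dimension over number fields

**The parameters.** Let `L ⊂ ℂ` be a number field and `S` a finite set of maximal ideals of its ring of
integers. Let `W ⊆ 𝔸^ν` be an irreducible affine variety over `L` of dimension at most `r`, given by its
prime ideal `I`, and let `F_1, …, F_M` be polynomials over `L` such that any `r + 1` of the functions `F_l` on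
`W` are multiplicatively independent modulo constants (`MultIndependent`). The parameters are the
points `t ∈ W(L)` such that all values `F_l(t)` are `S`-integral.

**The variations.** Let `X = X_c ⊂ Y(1)^n × G_m^k` be the image of the solutions of a finite system of
polynomials in `n + k + N` variables with coefficients `c q β ∈ L` (`solutions`). A variation of mixed
Hodge structure is given by a base `S' ⊂ ℂ^(N')` (the points `s` with `P(s) = 0`, `4 A_i(s)³ + 27 B_i(s)² ≠ 0`,
`U_j(s) ≠ 0`; here `P`, `A`, `B`, `U` are any complex polynomials), `n` elliptic curves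
`Y² = X³ + A_i X + B_i` over `S'` and `k` invertible functions `U_j` (Kummer variations), as in the starting
file `TropicalEllipticFamilies`. By the `j`-invariant and the exponential function the quotient `Γ \ D` of
the period domain is `Y(1)^n × G_m^k`, and we consider all variations such that the image `Φ(S')` of the
period map (`image`) is contained in `X_c`. The Hodge subvarieties are the products `Z × C` of special
subvarieties and torsion cosets; more generally the constants of `Z` can be integral over the ring of
`S`-integers of `L` and `C` can be a coset by a point whose coordinates are units which are integral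
over it.

**The condition.** The coefficients have the form `c q β = F_l(t) ^ e l q β * g`, where `g` is `S`-integral
and a unit at all places `v ∉ S` with `v(F_l(t)) < 1` (`HasOrders`). So `e l q β` are the orders of the
coefficients if `F_l(t)` is considered as a uniformizer. The condition `Redundant` is that every type
`(cls, d, L)` of Hodge subvarieties of dimension less than `n + k - m` is excluded by at least `r + 1`
indices `l`: the tropicalization of the system with the orders `e l` contains no point compatible with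
the type. (For one parameter, a point of an elliptic curve, and a fixed family of variations the
starting file `TropicalEllipticFamilies` has the condition that each type is excluded by one index.)

**Theorem.** There is a function `H` on `W`, not identically zero, which depends only on `L`, `S`, `r`, `W`
and the `F_l`, such that the following holds for ALL `n`, `k`, `N`, `m`, ALL finite systems of exponents with
orders `e` which satisfy `Redundant`, and all countable fields `K` which contain `L`. Let `t ∈ W(L)` be a
parameter with `H(t) ≠ 0` and let `c` be any coefficients with these orders at `t`. Then for all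
variations with `Φ(S') ⊂ X_c` every irreducible constructible subset `A` of `Φ(S') ∩ Γ' \ D'` satisfies
`dim A + (n + k - m) ≤ dim Γ' \ D'`, and the same bound holds for the transcendence degrees over `K` of
the points of `Φ(S') ∩ Γ' \ D'` (`NoAtypicalHodge`). So the atypical Hodge locus of these variations with
`dim Φ(S') = m` is empty, and the `t` for which there are such variations with atypical components are
on one proper closed subset of `W` for all the systems at once. If `W` is a cone and the `F_l` are
forms, then `H` can be taken to be a form.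

In particular (second part) let `F_1, …, F_M` be nonconstant polynomials in `r` variables over `L`,
pairwise coprime. Then there is a polynomial `H ≠ 0` in `r` variables (a form, if the `F_l` are) such that
this holds for all `t ∈ L^r` with `H(t) ≠ 0` for which all `F_l(t)` are `S`-integral and no two of them are
divisible by a common prime ideal outside of `S`, for the systems with the coefficients
`a q β ∏_l F_l(t) ^ e l q β` with `S`-units `a q β` and orders `e` which satisfy `Redundant`.

My file `MP_a325a5_ag.SeveralParameters` has parameters and coefficients in `ℤ`, for subsets of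
`Y(1)^n × G_m^k`. Here the parameters are points over a number field with `S`-integral values (the
coordinates of `t` can have any denominators), the coefficients and the constants are in a number
field, and the sets are period images of variations.

Proof. By the tropical criterion (`coreB`, starting library) it is sufficient that among any `r + 1` of the
values `F_l(t)` one is divisible by a prime ideal outside of `S`; the place of `ℂ` is an extension of
the place of this prime ideal which is trivial on given algebraically independent numbers. Otherwise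
`r + 1` of them are `S`-units. There is an algebraic relation over `L` between these `r + 1` functions on
`W`; a relation with the smallest number of terms has at least two terms and no vanishing subsum on
`W`. Its value at `t` is a sum of elements of a finitely generated group which is zero; hence a
proper subsum vanishes at `t`, or the ratio of two of the terms, which is not constant on `W` because
of the multiplicative independence, has one of finitely many values (unit equation over number
fields, starting library).
-/

set_option autoImplicit false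

namespace Pool.Agent.Results.MP_eeb1a4_ag.SeveralAlgebraicParameters

open MvPolynomial Pool.Agent.R424.TG IsDedekindDomain NumberField
open Pool.Agent.Y152.RP.FamM (NoAtypical)

/-- Any `r + 1` of the functions `F l` are multiplicatively independent modulo constants on the variety
of the prime ideal `I`. -/
def MultIndependent {L : Type} [Field L] {ν M : ℕ} (I : Ideal (MvPolynomial (Fin ν) L)) (r : ℕ)
    (F : Fin M → MvPolynomial (Fin ν) L) : Prop :=
  ∀ s : Finset (Fin M), s.card = r + 1 → ∀ a a' : Fin M → ℕ, (∀ l, l ∉ s → a l = 0 ∧ a' l = 0) →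
    a ≠ a' → ∀ α : L, ∏ l, F l ^ a l - C α * ∏ l, F l ^ a' l ∉ I

/-- Every type of Hodge subvarieties of dimension less than `n + k - m` is excluded by at least `r + 1`
of the indices `l`: the tropicalization of the system with the orders `e l` of the coefficients
contains no point compatible with the type. -/
def Redundant {n k N M : ℕ} {κ : Type} (m r : ℕ)
    (supp : κ → Finset (((Fin n ⊕ Fin k) ⊕ Fin N) →₀ ℕ))
    (e : Fin M → κ → (((Fin n ⊕ Fin k) ⊕ Fin N) →₀ ℕ) → ℕ) : Prop :=
  ∀ (r' : ℕ) (cls : Fin n → Option (Fin r')) (d : Fin n → ℕ) (L : Submodule ℚ (Fin k → ℚ)),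
    (∀ i, 0 < d i) → r' + Module.finrank ℚ L + m < n + k →
      ∃ s : Finset (Fin M), s.card = r + 1 ∧
        ∀ l ∈ s, ∀ w, (∀ q, TropAt (supp q) (e l q) w) → ¬ Compatible cls d L w

variable {L : Type} [Field L] [NumberField L]

/-- The element `x` of the number field `L` is integral outside of `S`. -/
def Integral (S : Finset (HeightOneSpectrum (𝓞 L))) (x : L) : Prop :=
  ∀ v ∉ S, v.valuation L x ≤ 1

/-- The coefficients `c q β` are of the form `f l ^ e l q β * g`, where `g` is integral outside of `S` and a
unit at all places outside of `S` at which `f l` is not a unit. -/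
def HasOrders {n k N M : ℕ} {κ : Type} (S : Finset (HeightOneSpectrum (𝓞 L))) (f : Fin M → L)
    (supp : κ → Finset (((Fin n ⊕ Fin k) ⊕ Fin N) →₀ ℕ))
    (e : Fin M → κ → (((Fin n ⊕ Fin k) ⊕ Fin N) →₀ ℕ) → ℕ)
    (c : κ → (((Fin n ⊕ Fin k) ⊕ Fin N) →₀ ℕ) → L) : Prop :=
  ∀ l q, ∀ β ∈ supp q, ∃ g : L, c q β = f l ^ e l q β * g ∧ Integral S g ∧
    ∀ v ∉ S, v.valuation L (f l) < 1 → v.valuation L g = 1

/-- The inclusion of the ring of the elements of `L` which are integral outside of `S` in the complex
numbers. -/
noncomputable def incl (σ : L →+* ℂ) (S : Finset (HeightOneSpectrum (𝓞 L))) :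
    (S : Set (HeightOneSpectrum (𝓞 L))).integer L →+* ℂ :=
  σ.comp (algebraMap ((S : Set (HeightOneSpectrum (𝓞 L))).integer L) L)

/-- The local criterion with a choice of the place for every type. -/
theorem local_types (σ : L →+* ℂ) (S : Finset (HeightOneSpectrum (𝓞 L))) (K : Subfield ℂ)
    [Countable K] (hK : ∀ a, σ a ∈ K) (κ : Type) [Finite κ] (n k N m M : ℕ)
    (supp : κ → Finset (((Fin n ⊕ Fin k) ⊕ Fin N) →₀ ℕ))
    (e : Fin M → κ → (((Fin n ⊕ Fin k) ⊕ Fin N) →₀ ℕ) → ℕ)
    (c : κ → (((Fin n ⊕ Fin k) ⊕ Fin N) →₀ ℕ) → L)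
    (hgood : ∀ (r : ℕ) (cls : Fin n → Option (Fin r)) (d : Fin n → ℕ)
      (E : Submodule ℚ (Fin k → ℚ)), (∀ i, 0 < d i) → r + Module.finrank ℚ E + m < n + k →
      ∃ l, (∀ w, (∀ q, TropAt (supp q) (e l q) w) → ¬ Compatible cls d E w) ∧
        ∃ (f : L) (v : HeightOneSpectrum (𝓞 L)), f ≠ 0 ∧ v ∉ S ∧ Integral S f ∧
          v.valuation L f < 1 ∧ ∀ q, ∀ β ∈ supp q, ∃ g : L, c q β = f ^ e l q β * g ∧
            Integral S g ∧ v.valuation L g = 1) :
    NoAtypical (incl σ S) K m
      (solutions supp (fun q β => σ (c q β)) : Set (Fin n ⊕ Fin k → ℂ)) := by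
  classical
  let T : Set (HeightOneSpectrum (𝓞 L)) := S
  let Λ := T.integer L
  let fΛ : Λ →+* ℂ := incl σ S
  have hf : Function.Injective fΛ := by
    intro a b hab
    exact Subtype.ext (σ.injective hab)
  have hKΛ : ∀ a : Λ, fΛ a ∈ K := fun a => hK _
  let _ : Algebra Λ ℂ := fΛ.toAlgebra
  let fK : Λ →+* K := fΛ.codRestrict K hKΛ
  let _ : Algebra Λ K := fK.toAlgebra
  have hst : IsScalarTower Λ K ℂ := IsScalarTower.of_algebraMap_eq fun _ => rfl
  have hfK : Function.Injective (algebraMap Λ K) := fun a b h => hf (congrArg Subtype.val h)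
  refine coreB fΛ K hKΛ _ _ fun r cls d E hd hr => ?_
  obtain ⟨l, hl, f, v, h0, hv, hfint, hvf, hc⟩ := hgood r cls d E hd hr
  refine ⟨e l, hl, fun ρ x hx => ?_⟩
  have hvT : v ∉ T := hv
  obtain ⟨𝔭, h𝔭, hmem⟩ := Pool.Agent.U163.ZP.NF.exists_prime T v hvT
  have hxΛ : AlgebraicIndependent Λ x := hx.restrictScalars hfK
  obtain ⟨V, hV1, hV2⟩ := Pool.Agent.Y152.BD.exists_place_gauss 𝔭 x hxΛ
  have hle : ∀ a : Λ, V.valuation (fΛ a) ≤ 1 := by
    intro a
    have h1 := hV1 (C a)
    rw [aeval_C] at h1
    exact h1
  have hlt : ∀ a : Λ, V.valuation (fΛ a) < 1 ↔ a ∈ 𝔭 := by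
    intro a
    have h1 := hV2 (C a)
    rw [aeval_C, MvPolynomial.map_C, map_eq_zero_iff C (C_injective _ _),
      Ideal.Quotient.eq_zero_iff_mem] at h1
    exact h1
  have hunit : ∀ a : Λ, a ∉ 𝔭 → V.valuation (fΛ a) = 1 := by
    intro a ha
    refine le_antisymm (hle a) ?_
    by_contra h
    push Not at h
    exact ha ((hlt a).1 h)
  let f' : Λ := ⟨f, fun w hw => hfint w hw⟩
  have hf' : f' ∈ 𝔭 := (hmem f').2 hvf
  refine ⟨V, V.valuation (fΛ f'), ?_, (hlt _).2 hf', fun q β hβ => ?_, hle, fun j => ?_⟩
  · rw [Valuation.ne_zero_iff]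
    intro h1
    exact h0 (congrArg Subtype.val (hf (h1.trans (map_zero fΛ).symm)))
  · obtain ⟨g, hg1, hg2, hg3⟩ := hc q β hβ
    let g' : Λ := ⟨g, fun w hw => hg2 w hw⟩
    have hg' : g' ∉ 𝔭 := by
      rw [hmem]
      change ¬ v.valuation L g < 1
      rw [hg3]
      exact lt_irrefl _
    have h5 : σ (c q β) = fΛ f' ^ e l q β * fΛ g' := by
      rw [hg1, map_mul, map_pow]
      rfl
    rw [h5, map_mul, map_pow, hunit g' hg', mul_one]
  · have h1 := hV1 (X j)
    rw [aeval_X] at h1
    refine le_antisymm h1 (not_lt.1 fun h2 => ?_)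
    have h3 := (hV2 (X j)).1 (by rw [aeval_X]; exact h2)
    rw [MvPolynomial.map_X] at h3
    have : Nontrivial (Λ ⧸ 𝔭) := Ideal.Quotient.nontrivial_iff.2 h𝔭.ne_top
    exact MvPolynomial.X_ne_zero j h3

/-- **Zilber-Pink for variations of mixed Hodge structure over parameter spaces of any dimension over
number fields.** -/
theorem result (L : Type) [Field L] [NumberField L] (σ : L →+* ℂ)
    (S : Finset (HeightOneSpectrum (𝓞 L))) (r M : ℕ) :
    (∀ (ν : ℕ) (I : Ideal (MvPolynomial (Fin ν) L)), I.IsPrime →
      Algebra.trdeg L (MvPolynomial (Fin ν) L ⧸ I) ≤ r →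
      ∀ F : Fin M → MvPolynomial (Fin ν) L, MultIndependent I r F →
      ∃ H : MvPolynomial (Fin ν) L, H ∉ I ∧
        ((∀ f ∈ I, ∀ j, homogeneousComponent j f ∈ I) → (∀ l, ∃ j, (F l).IsHomogeneous j) →
          ∃ j, H.IsHomogeneous j) ∧
        ∀ t : Fin ν → L, (∀ f ∈ I, eval t f = 0) → (∀ l, Integral S (eval t (F l))) →
          eval t H ≠ 0 →
          ∀ (K : Subfield ℂ) [Countable K], (∀ a, σ a ∈ K) →
          ∀ (κ : Type) [Finite κ] (n k N m : ℕ)
            (supp : κ → Finset (((Fin n ⊕ Fin k) ⊕ Fin N) →₀ ℕ))
            (e : Fin M → κ → (((Fin n ⊕ Fin k) ⊕ Fin N) →₀ ℕ) → ℕ), Redundant m r supp e →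
          ∀ c : κ → (((Fin n ⊕ Fin k) ⊕ Fin N) →₀ ℕ) → L,
            HasOrders S (fun l => eval t (F l)) supp e c →
          ∀ (κ₀ : Type) (N' : ℕ) (P : κ₀ → MvPolynomial (Fin N') ℂ)
            (A B : Fin n → MvPolynomial (Fin N') ℂ) (U : Fin k → MvPolynomial (Fin N') ℂ),
            image (RingHom.id ℂ) P A B U ⊆ solutions supp (fun q β => σ (c q β)) →
            NoAtypicalHodge (incl σ S) K m (image (RingHom.id ℂ) P A B U)) ∧
    ∀ F : Fin M → MvPolynomial (Fin r) L, (∀ l, 0 < (F l).totalDegree) →
      (∀ l l', l ≠ l' → IsRelPrime (F l) (F l')) →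
      ∃ H : MvPolynomial (Fin r) L, H ≠ 0 ∧
        ((∀ l, ∃ j, (F l).IsHomogeneous j) → ∃ j, H.IsHomogeneous j) ∧
        ∀ t : Fin r → L, (∀ l, Integral S (eval t (F l))) →
          (∀ l l', l ≠ l' → ∀ v ∉ S, v.valuation L (eval t (F l)) < 1 →
            v.valuation L (eval t (F l')) = 1) →
          eval t H ≠ 0 →
          ∀ (K : Subfield ℂ) [Countable K], (∀ a, σ a ∈ K) →
          ∀ (κ : Type) [Finite κ] (n k N m : ℕ)
            (supp : κ → Finset (((Fin n ⊕ Fin k) ⊕ Fin N) →₀ ℕ))
            (e : Fin M → κ → (((Fin n ⊕ Fin k) ⊕ Fin N) →₀ ℕ) → ℕ), Redundant m r supp e →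
          ∀ a : κ → (((Fin n ⊕ Fin k) ⊕ Fin N) →₀ ℕ) → L,
            (∀ q, ∀ β ∈ supp q, ∀ v ∉ S, v.valuation L (a q β) = 1) →
          ∀ (κ₀ : Type) (N' : ℕ) (P : κ₀ → MvPolynomial (Fin N') ℂ)
            (A B : Fin n → MvPolynomial (Fin N') ℂ) (U : Fin k → MvPolynomial (Fin N') ℂ),
            image (RingHom.id ℂ) P A B U ⊆
              solutions supp (fun q β => σ (a q β * ∏ l, eval t (F l) ^ e l q β)) →
            NoAtypicalHodge (incl σ S) K m (image (RingHom.id ℂ) P A B U) := by
  classical
  have main : ∀ (ν : ℕ) (I : Ideal (MvPolynomial (Fin ν) L)), I.IsPrime →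
      Algebra.trdeg L (MvPolynomial (Fin ν) L ⧸ I) ≤ r →
      ∀ F : Fin M → MvPolynomial (Fin ν) L, MultIndependent I r F →
      ∃ H : MvPolynomial (Fin ν) L, H ∉ I ∧
        ((∀ f ∈ I, ∀ j, homogeneousComponent j f ∈ I) → (∀ l, ∃ j, (F l).IsHomogeneous j) →
          ∃ j, H.IsHomogeneous j) ∧
        ∀ t : Fin ν → L, (∀ f ∈ I, eval t f = 0) → (∀ l, Integral S (eval t (F l))) →
          eval t H ≠ 0 →
          ∀ (K : Subfield ℂ) [Countable K], (∀ a, σ a ∈ K) →
          ∀ (κ : Type) [Finite κ] (n k N m : ℕ)
            (supp : κ → Finset (((Fin n ⊕ Fin k) ⊕ Fin N) →₀ ℕ))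
            (e : Fin M → κ → (((Fin n ⊕ Fin k) ⊕ Fin N) →₀ ℕ) → ℕ), Redundant m r supp e →
          ∀ c : κ → (((Fin n ⊕ Fin k) ⊕ Fin N) →₀ ℕ) → L,
            HasOrders S (fun l => eval t (F l)) supp e c →
            NoAtypical (incl σ S) K m
              (solutions supp (fun q β => σ (c q β)) : Set (Fin n ⊕ Fin k → ℂ)) := by
    intro ν I hI hr F hF
    by_cases hM : r + 1 ≤ M
    · obtain ⟨H, hH, hhom, hcore⟩ := Pool.Agent.U163.ZP.NF.core_places I r hM hr F
        (fun s hs a a' h hne α => hF s hs a a' h hne α) S
      refine ⟨H, hH, hhom, fun t ht hint htH K _ hK κ _ n k N m supp e he c hc => ?_⟩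
      obtain ⟨ht0, hbig⟩ := hcore t ht (fun l v hv => hint l v hv) htH
      refine local_types σ S K hK κ n k N m M supp e c fun r' cls d E hd hr' => ?_
      obtain ⟨s, hs, hex⟩ := he r' cls d E hd hr'
      obtain ⟨l, hl, v, hv, hvF⟩ := hbig s hs
      refine ⟨l, hex l hl, eval t (F l), v, ht0 l, hv, hint l, hvF, fun q β hβ => ?_⟩
      obtain ⟨g, hg1, hg2, hg3⟩ := hc l q β hβ
      exact ⟨g, hg1, hg2, hg3 v hv hvF⟩
    · refine ⟨1, fun h => hI.ne_top ((Ideal.eq_top_iff_one _).2 h), fun _ _ =>
        ⟨0, isHomogeneous_one _ _⟩, fun t _ _ _ K _ hK κ _ n k N m supp e he c _ => ?_⟩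
      refine local_types σ S K hK κ n k N m M supp e c fun r' cls d E hd hr' => ?_
      obtain ⟨s, hs, -⟩ := he r' cls d E hd hr'
      have h1 := Finset.card_le_univ s
      rw [Fintype.card_fin, hs] at h1
      exact absurd h1 hM
  refine ⟨fun ν I hI hr F hF => ?_, fun F hF1 hF2 => ?_⟩
  · obtain ⟨H, hH, hhom, h⟩ := main ν I hI hr F hF
    refine ⟨H, hH, hhom, fun t ht hint htH K _ hK κ _ n k N m supp e he c hc κ₀ N' P A B U hX => ?_⟩
    exact noAtypicalHodge_of (h t ht hint htH K hK κ n k N m supp e he c hc) hX
  · obtain ⟨H, hH, hhom, h⟩ := main r ⊥ Ideal.isPrime_bot (Pool.Agent.U163.ZP.NF.trdeg_bot r) F (by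
      intro s _ a a' _ hne α
      exact Pool.Agent.U163.ZP.NF.not_mem_bot
        (fun l => Pool.Agent.U163.ZP.NF.ne_zero_of_totalDegree (hF1 l))
        (fun l => Pool.Agent.U163.ZP.NF.not_isUnit_of_totalDegree (hF1 l)) hF2 hne α)
    refine ⟨H, fun h0 => hH (Ideal.mem_bot.2 h0), fun h1 => hhom ?_ h1,
      fun t hint ht htH K _ hK κ _ n k N m supp e he a ha κ₀ N' P A B U hX => ?_⟩
    · intro f hf j
      rw [Ideal.mem_bot] at hf ⊢
      rw [hf, map_zero]
    · refine noAtypicalHodge_of (h t (fun f hf => ?_) hint htH K hK κ n k N m supp e he _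
        fun l q β hβ => ?_) hX
      · rw [Ideal.mem_bot] at hf
        rw [hf, map_zero]
      · refine ⟨a q β * ∏ l' ∈ Finset.univ.erase l, eval t (F l') ^ e l' q β, ?_, ?_, ?_⟩
        · rw [← Finset.mul_prod_erase Finset.univ (fun l' => eval t (F l') ^ e l' q β)
            (Finset.mem_univ l)]
          ring
        · intro v hv
          rw [map_mul, ha q β hβ v hv, one_mul, map_prod]
          refine Finset.prod_le_one' fun l' _ => ?_
          rw [map_pow]
          exact pow_le_one' (hint l' v hv) _
        · intro v hv hvl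
          rw [map_mul, ha q β hβ v hv, one_mul, map_prod]
          refine Finset.prod_eq_one fun l' hl' => ?_
          rw [map_pow, ht l l' (Finset.ne_of_mem_erase hl').symm v hv hvl, one_pow]

end Pool.Agent.Results.MP_eeb1a4_ag.SeveralAlgebraicParameters
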